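import Pool.Agent.K3h28.FR.Main

/-!
# Groups of functions of finite range

Helper28, for MP_e40716_gt (FiniteRangeFunctions).
-/

set_option autoImplicit false

namespace Pool.Agent.K3h28.FR

open Pool.Agent.Y110.FJ
open Pool.Agent.Y462.SS (Closed)

/-- the group of all functions `Ω → K` which take only finitely many values -/
def FinRange (Ω K : Type) [Group K] : Subgroup (Ω → K) where
  carrier := {f | (Set.range f).Finite}
  one_mem' := by
    refine (Set.finite_singleton (1 : K)).subset ?_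
    rintro _ ⟨x, rfl⟩
    rfl
  mul_mem' := by
    intro a b ha hb
    refine (Set.Finite.image2 (· * ·) ha hb).subset ?_
    rintro _ ⟨x, rfl⟩
    exact ⟨_, ⟨x, rfl⟩, _, ⟨x, rfl⟩, rfl⟩
  inv_mem' := by
    intro a ha
    refine (Set.Finite.image (·⁻¹) ha).subset ?_
    rintro _ ⟨x, rfl⟩
    exact ⟨_, ⟨x, rfl⟩, rfl⟩

/-- the action of `Q` on the functions: `(q f)(x) = f (q⁻¹ x)` -/
def finRangeAct (Ω K Q : Type) [Group K] [Group Q] [MulAction Q Ω] :
    Q →* MulAut (FinRange Ω K) where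
  toFun q :=
    { toFun := fun f => ⟨fun x => f.1 (q⁻¹ • x), by
        refine f.2.subset ?_
        rintro _ ⟨x, rfl⟩
        exact ⟨_, rfl⟩⟩
      invFun := fun f => ⟨fun x => f.1 (q • x), by
        refine f.2.subset ?_
        rintro _ ⟨x, rfl⟩
        exact ⟨_, rfl⟩⟩
      left_inv := fun f => Subtype.ext (funext fun x => by simp)
      right_inv := fun f => Subtype.ext (funext fun x => by simp)
      map_mul' := fun f g => rfl }
  map_one' := by
    ext f x
    simp
  map_mul' := fun q q' => by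
    ext f x
    simp [mul_smul]

theorem finRangeAct_apply (Ω K Q : Type) [Group K] [Group Q] [MulAction Q Ω] (q : Q)
    (f : FinRange Ω K) (x : Ω) : (finRangeAct Ω K Q q f).1 x = f.1 (q⁻¹ • x) := rfl

/-- finitely many values on a finite set of functions of finite range -/
theorem fin_types {M Ω K : Type} (φ : Ω → M → K) (hr : ∀ x, (Set.range fun ω => φ ω x).Finite)
    (E : Set M) (hE : E.Finite) :
    ∃ J : Set Ω, J.Finite ∧ ∀ ω, ∃ ω' ∈ J, ∀ x ∈ E, φ ω' x = φ ω x := by
  have hEf : Finite E := hE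
  obtain ⟨e, he⟩ : ∃ e : Ω → (E → K), e = fun ω x => φ ω x.1 := ⟨_, rfl⟩
  have h1 : (Set.range e).Finite := by
    refine (Set.Finite.pi (fun x : E => hr x.1)).subset ?_
    rintro _ ⟨ω, rfl⟩ x _
    rw [he]
    exact ⟨ω, rfl⟩
  have hf : Finite (Set.range e) := h1
  refine ⟨Set.range fun v : Set.range e => v.2.choose, Set.finite_range _, fun ω => ?_⟩
  refine ⟨_, ⟨⟨e ω, ω, rfl⟩, rfl⟩, fun x hx => ?_⟩
  have h2 : e (Set.mem_range.1 (⟨ω, rfl⟩ : e ω ∈ Set.range e)).choose = e ω :=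
    (Set.mem_range.1 (⟨ω, rfl⟩ : e ω ∈ Set.range e)).choose_spec
  have h3 := congrFun h2 ⟨x, hx⟩
  rw [he] at h3
  rw [he]
  exact h3

/-- **functions of finite range** -/
theorem C_finRange {C : ∀ (G : Type) [Group G], Prop} (hC : ClosedE C) (Ω K Q : Type) [Group K]
    [Group Q] [MulAction Q Ω] (hK : C K) (hQ : C Q) :
    C (FinRange Ω K ⋊[finRangeAct Ω K Q] Q) := by
  obtain ⟨π, hπ⟩ : ∃ π : (FinRange Ω K ⋊[finRangeAct Ω K Q] Q) →* Q,
      π = SemidirectProduct.rightHom := ⟨_, rfl⟩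
  have hπ' : ∀ x, π x = x.right := by
    intro x
    rw [hπ]
    rfl
  have hk : ∀ x : π.ker, x.1.right = 1 := by
    intro x
    rw [← hπ']
    exact x.2
  let φ : Ω → π.ker →* K := fun ω =>
    { toFun := fun x => x.1.left.1 ω
      map_one' := rfl
      map_mul' := fun x y => by
        change (x.1.left * (finRangeAct Ω K Q x.1.right) y.1.left).1 ω = _
        rw [hk x, map_one]
        rfl }
  have hφ : ∀ ω x, φ ω x = x.1.left.1 ω := fun ω x => rfl
  refine main hC π.ker ?_ (I := Ω) (fun _ => K) (fun _ _ => Set.range (MulAut.conj : K →* MulAut K))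
    ?_ ?_ φ ?_ ?_ ?_
  · exact hC.base.of_injective _ _ (QuotientGroup.kerLift π) (QuotientGroup.kerLift_injective π) hQ
  · refine ⟨fun i k => ⟨k, rfl⟩, ?_, ?_⟩
    · rintro i j _ ⟨k, rfl⟩
      exact ⟨k⁻¹, map_inv _ _⟩
    · rintro i j l _ ⟨k, rfl⟩ _ ⟨k', rfl⟩
      exact ⟨k' * k, map_mul _ _ _⟩
  · rintro i _ ⟨k, rfl⟩
    exact C_conj hC.base hK k
  · intro x hx
    exact Subtype.ext (SemidirectProduct.ext (Subtype.ext (funext fun ω => hx ω)) (hk x))
  · intro ω g
    refine ⟨g.right • ω, _, ⟨g.left.1 (g.right • ω), rfl⟩, fun x y hxy => ?_⟩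
    have h1 : y.1 * g = g * x.1 := by
      rw [hxy, inv_mul_cancel_right]
    have h2 := congrFun (congrArg Subtype.val (congrArg SemidirectProduct.left h1)) (g.right • ω)
    rw [hφ, hφ, MulAut.conj_apply, eq_mul_inv_iff_mul_eq]
    have h3 : (y.1 * g).left = y.1.left * g.left := by
      rw [SemidirectProduct.mul_left, hk y, map_one, MulAut.one_apply]
    rw [h3] at h2
    have h4 : (g * x.1).left.1 (g.right • ω) = g.left.1 (g.right • ω) * x.1.left.1 ω := by
      rw [SemidirectProduct.mul_left]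
      change g.left.1 (g.right • ω) * (finRangeAct Ω K Q g.right x.1.left).1 (g.right • ω) = _
      rw [finRangeAct_apply, inv_smul_smul]
    rw [h4] at h2
    exact h2
  · intro E hE
    obtain ⟨J, hJ, h1⟩ := fin_types (fun ω x => φ ω x) (fun x => x.1.left.2) E hE
    refine ⟨J, hJ, fun ω => ?_⟩
    obtain ⟨ω', hω', h2⟩ := h1 ω
    refine ⟨ω', hω', 1, ⟨1, map_one _⟩, fun x hx => ?_⟩
    exact h2 x hx

end Pool.Agent.K3h28.FR
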