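import Pool.Agent.K3h28.FR.Bdd

/-!
# Boolean powers

Helper28, for MP_e40716_gt (FiniteRangeFunctions).
-/

set_option autoImplicit false

namespace Pool.Agent.K3h28.FR

open Pool.Agent.Y110.FJ
open Pool.Agent.Y462.SS (Closed)
open MeasureTheory (IsSetRing)

theorem supp_mem {Ω K : Type} [Group K] {R : Set (Set Ω)} (hR : IsSetRing R) {f : Ω → K}
    (h1 : (Set.range f).Finite) (h2 : ∀ k : K, k ≠ 1 → f ⁻¹' {k} ∈ R) : {ω | f ω ≠ 1} ∈ R := by
  classical
  have h3 := hR.biUnion_mem (s := fun k => f ⁻¹' {k}) (h1.toFinset.filter (· ≠ 1))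
    (fun k hk => h2 k (Finset.mem_filter.1 hk).2)
  convert h3 using 1
  ext ω
  simp only [Set.mem_ofPred_eq, Set.mem_iUnion, Finset.mem_filter, Set.Finite.mem_toFinset,
    Set.mem_range, exists_prop, Set.mem_preimage, Set.mem_singleton_iff]
  constructor
  · intro h
    exact ⟨f ω, ⟨⟨ω, rfl⟩, h⟩, rfl⟩
  · rintro ⟨k, ⟨_, hk⟩, rfl⟩
    exact hk

/-- The Boolean power of `K` by the ring of sets `R`: all functions `f` with finitely many values
such that `f = k` on a member of `R`, for each `k ≠ 1`. -/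
def BPow (K : Type) [Group K] {Ω : Type} (R : Set (Set Ω)) (hR : IsSetRing R) :
    Subgroup (Ω → K) where
  carrier := {f | (Set.range f).Finite ∧ ∀ k : K, k ≠ 1 → f ⁻¹' {k} ∈ R}
  one_mem' := by
    refine ⟨(FinRange Ω K).one_mem, fun k hk => ?_⟩
    have h1 : (1 : Ω → K) ⁻¹' {k} = ∅ := by
      ext ω
      simp only [Set.mem_preimage, Set.mem_singleton_iff, Set.mem_empty_iff_false, iff_false]
      exact fun h => hk h.symm
    rw [h1]
    exact hR.empty_mem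
  mul_mem' := by
    classical
    rintro f g ⟨hf1, hf2⟩ ⟨hg1, hg2⟩
    refine ⟨(FinRange Ω K).mul_mem hf1 hg1, fun k hk => ?_⟩
    have hfs := supp_mem hR hf1 hf2
    have hgs := supp_mem hR hg1 hg2
    obtain ⟨W, hW⟩ : ∃ W : Set Ω, W = {ω | f ω ≠ 1} ∪ {ω | g ω ≠ 1} := ⟨_, rfl⟩
    have hWR : W ∈ R := by rw [hW]; exact hR.union_mem hfs hgs
    have h1 : ∀ a, f ⁻¹' {a} ∩ W ∈ R := by
      intro a
      by_cases ha : a = 1
      · have h2 : f ⁻¹' {a} ∩ W = W \ {ω | f ω ≠ 1} := by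
          ext ω
          simp only [ha, Set.mem_inter_iff, Set.mem_preimage, Set.mem_singleton_iff, Set.mem_sdiff,
            Set.mem_ofPred_eq, not_not]
          exact and_comm
        rw [h2]
        exact hR.sdiff_mem hWR hfs
      · exact hR.inter_mem (hf2 a ha) hWR
    have h1' : ∀ a, g ⁻¹' {a} ∩ W ∈ R := by
      intro a
      by_cases ha : a = 1
      · have h2 : g ⁻¹' {a} ∩ W = W \ {ω | g ω ≠ 1} := by
          ext ω
          simp only [ha, Set.mem_inter_iff, Set.mem_preimage, Set.mem_singleton_iff, Set.mem_sdiff,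
            Set.mem_ofPred_eq, not_not]
          exact and_comm
        rw [h2]
        exact hR.sdiff_mem hWR hgs
      · exact hR.inter_mem (hg2 a ha) hWR
    have h3 := hR.biUnion_mem (s := fun a => (f ⁻¹' {a} ∩ W) ∩ (g ⁻¹' {a⁻¹ * k} ∩ W))
      hf1.toFinset (fun a _ => hR.inter_mem (h1 a) (h1' _))
    convert h3 using 1
    ext ω
    simp only [Set.mem_preimage, Pi.mul_apply, Set.mem_singleton_iff, Set.Finite.mem_toFinset,
      Set.mem_range, Set.mem_iUnion, exists_prop, Set.mem_inter_iff]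
    constructor
    · intro h
      have hωW : ω ∈ W := by
        rw [hW]
        by_contra h4
        simp only [Set.mem_union, Set.mem_ofPred_eq, not_or, not_not] at h4
        rw [h4.1, h4.2, mul_one] at h
        exact hk h.symm
      refine ⟨f ω, ⟨ω, rfl⟩, ⟨rfl, hωW⟩, ?_, hωW⟩
      rw [← h, inv_mul_cancel_left]
    · rintro ⟨a, _, ⟨h4, _⟩, h5, _⟩
      rw [h4, h5, mul_inv_cancel_left]
  inv_mem' := by
    rintro f ⟨hf1, hf2⟩
    refine ⟨(FinRange Ω K).inv_mem hf1, fun k hk => ?_⟩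
    have h1 : f⁻¹ ⁻¹' {k} = f ⁻¹' {k⁻¹} := by
      ext ω
      simp only [Set.mem_preimage, Pi.inv_apply, Set.mem_singleton_iff]
      exact inv_eq_iff_eq_inv
    rw [h1]
    exact hf2 _ (inv_ne_one.2 hk)

/-- an ultrafilter of a ring of sets -/
structure IsUF {Ω : Type} (R : Set (Set Ω)) (p : Set (Set Ω)) : Prop where
  sub : p ⊆ R
  ne : ∅ ∉ p
  nonempty : p.Nonempty
  mono : ∀ U ∈ p, ∀ V ∈ R, U ⊆ V → V ∈ p
  inter : ∀ U ∈ p, ∀ V ∈ p, U ∩ V ∈ p
  prime : ∀ U ∈ p, ∀ V ∈ R, U ∩ V ∈ p ∨ U \ V ∈ p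

section ultra

variable {Ω K : Type} [Group K] {R : Set (Set Ω)} {hR : IsSetRing R}

open Classical in
/-- the function with the value `k` on `U` -/
noncomputable def dlt (hR : IsSetRing R) (U : Set Ω) (hU : U ∈ R) (k : K) : BPow K R hR :=
  ⟨fun ω => if ω ∈ U then k else 1, by
    refine ⟨?_, fun l hl => ?_⟩
    · refine (Set.toFinite {k, 1}).subset ?_
      rintro _ ⟨ω, rfl⟩
      by_cases h : ω ∈ U
      · simp [h]
      · simp [h]
    · by_cases hkl : k = l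
      · have h1 : (fun ω => if ω ∈ U then k else 1) ⁻¹' {l} = U := by
          ext ω
          by_cases h : ω ∈ U
          · simp [h, hkl]
          · simp [h, hl.symm]
        rw [h1]
        exact hU
      · have h1 : (fun ω => if ω ∈ U then k else 1) ⁻¹' {l} = ∅ := by
          ext ω
          by_cases h : ω ∈ U
          · simp [h, hkl]
          · simp [h, hl.symm]
        rw [h1]
        exact hR.empty_mem⟩

theorem dlt_mem {U : Set Ω} (hU : U ∈ R) (k : K) {ω : Ω} (h : ω ∈ U) :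
    (dlt hR U hU k).1 ω = k := if_pos h

theorem dlt_notMem {U : Set Ω} (hU : U ∈ R) (k : K) {ω : Ω} (h : ω ∉ U) :
    (dlt hR U hU k).1 ω = 1 := if_neg h

theorem dlt_mul {U : Set Ω} (hU : U ∈ R) (k l : K) :
    dlt hR U hU (k * l) = dlt hR U hU k * dlt hR U hU l := by
  refine Subtype.ext (funext fun ω => ?_)
  change _ = (dlt hR U hU k).1 ω * (dlt hR U hU l).1 ω
  by_cases h : ω ∈ U
  · rw [dlt_mem hU _ h, dlt_mem hU _ h, dlt_mem hU _ h]
  · rw [dlt_notMem hU _ h, dlt_notMem hU _ h, dlt_notMem hU _ h, mul_one]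

open Classical in
/-- the restriction to `U` -/
noncomputable def rst (U : Set Ω) (hU : U ∈ R) (f : BPow K R hR) : BPow K R hR :=
  ⟨fun ω => if ω ∈ U then f.1 ω else 1, by
    refine ⟨?_, fun l hl => ?_⟩
    · refine (f.2.1.union (Set.finite_singleton (1 : K))).subset ?_
      rintro _ ⟨ω, rfl⟩
      by_cases h : ω ∈ U
      · exact Or.inl ⟨ω, by simp [h]⟩
      · exact Or.inr (by simp [h])
    · have h1 : (fun ω => if ω ∈ U then f.1 ω else 1) ⁻¹' {l} = f.1 ⁻¹' {l} ∩ U := by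
        ext ω
        by_cases h : ω ∈ U
        · simp [h]
        · simp [h, hl.symm]
      rw [h1]
      exact hR.inter_mem (f.2.2 l hl) hU⟩

theorem rst_mem {U : Set Ω} (hU : U ∈ R) (f : BPow K R hR) {ω : Ω} (h : ω ∈ U) :
    (rst U hU f).1 ω = f.1 ω := if_pos h

theorem rst_notMem {U : Set Ω} (hU : U ∈ R) (f : BPow K R hR) {ω : Ω} (h : ω ∉ U) :
    (rst U hU f).1 ω = 1 := if_neg h

theorem ev_ex {p : Set (Set Ω)} (hp : IsUF R p) (f : BPow K R hR) :
    ∃ k, ∃ U ∈ p, ∀ ω ∈ U, f.1 ω = k := by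
  classical
  have h1 : ∀ S : Finset K, 1 ∉ S →
      (∃ k, ∃ U ∈ p, ∀ ω ∈ U, f.1 ω = k) ∨ ∃ U ∈ p, ∀ ω ∈ U, f.1 ω ∉ S := by
    intro S
    induction S using Finset.induction_on with
    | empty =>
      intro _
      obtain ⟨U, hU⟩ := hp.nonempty
      exact Or.inr ⟨U, hU, fun ω _ => Finset.notMem_empty _⟩
    | insert a s ha ih =>
      intro h1
      rcases ih (fun h => h1 (Finset.mem_insert_of_mem h)) with h2 | ⟨U, hU, h2⟩
      · exact Or.inl h2
      · have ha1 : a ≠ 1 := fun h => h1 (h ▸ Finset.mem_insert_self a s)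
        rcases hp.prime U hU _ (f.2.2 a ha1) with h3 | h3
        · exact Or.inl ⟨a, _, h3, fun ω hω => hω.2⟩
        · refine Or.inr ⟨_, h3, fun ω hω h4 => ?_⟩
          rcases Finset.mem_insert.1 h4 with h5 | h5
          · exact hω.2 h5
          · exact h2 ω hω.1 h5
  rcases h1 (f.2.1.toFinset.erase 1) (Finset.notMem_erase 1 _) with h2 | ⟨U, hU, h2⟩
  · exact h2
  · refine ⟨1, U, hU, fun ω hω => ?_⟩
    by_contra h3
    exact h2 ω hω (Finset.mem_erase.2 ⟨h3, f.2.1.mem_toFinset.2 ⟨ω, rfl⟩⟩)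

omit [Group K] in
theorem ev_uniq {p : Set (Set Ω)} (hp : IsUF R p) {f : Ω → K} {k l : K} {U V : Set Ω}
    (hU : U ∈ p) (hV : V ∈ p) (h1 : ∀ ω ∈ U, f ω = k) (h2 : ∀ ω ∈ V, f ω = l) : k = l := by
  have h3 := hp.inter U hU V hV
  have h4 : (U ∩ V).Nonempty := by
    rw [Set.nonempty_iff_ne_empty]
    intro h5
    rw [h5] at h3
    exact hp.ne h3
  obtain ⟨ω, hω⟩ := h4
  rw [← h1 ω hω.1, h2 ω hω.2]

/-- the value at an ultrafilter -/
noncomputable def evU {p : Set (Set Ω)} (hp : IsUF R p) : BPow K R hR →* K where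
  toFun f := (ev_ex hp f).choose
  map_one' := by
    obtain ⟨U, hU, h⟩ := (ev_ex hp (1 : BPow K R hR)).choose_spec
    exact ev_uniq hp hU hU h (fun ω _ => rfl)
  map_mul' f g := by
    obtain ⟨U, hU, h⟩ := (ev_ex hp (f * g)).choose_spec
    obtain ⟨V, hV, h'⟩ := (ev_ex hp f).choose_spec
    obtain ⟨W, hW, h''⟩ := (ev_ex hp g).choose_spec
    refine ev_uniq hp hU (hp.inter V hV W hW) h (fun ω hω => ?_)
    rw [← h' ω hω.1, ← h'' ω hω.2]
    rfl

theorem evU_eq {p : Set (Set Ω)} (hp : IsUF R p) {f : BPow K R hR} {k : K} {U : Set Ω}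
    (hU : U ∈ p) (h : ∀ ω ∈ U, f.1 ω = k) : evU hp f = k := by
  obtain ⟨V, hV, h'⟩ := (ev_ex hp f).choose_spec
  exact ev_uniq hp hV hU h' h

theorem evU_spec {p : Set (Set Ω)} (hp : IsUF R p) (f : BPow K R hR) :
    ∃ U ∈ p, ∀ ω ∈ U, f.1 ω = evU hp f := (ev_ex hp f).choose_spec

theorem evU_surj {p : Set (Set Ω)} (hp : IsUF R p) :
    Function.Surjective (evU (K := K) (hR := hR) hp) := by
  intro k
  obtain ⟨U, hU⟩ := hp.nonempty
  exact ⟨dlt hR U (hp.sub hU) k, evU_eq hp hU fun ω hω => dlt_mem _ k hω⟩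

theorem uf_sub_eq {p r : Set (Set Ω)} (hp : IsUF R p) (hr : IsUF R r) (h : r ⊆ p) : r = p := by
  refine Set.Subset.antisymm h fun U hU => ?_
  obtain ⟨V, hV⟩ := hr.nonempty
  rcases hr.prime V hV U (hp.sub hU) with h1 | h1
  · exact hr.mono _ h1 _ (hp.sub hU) Set.inter_subset_right
  · have h2 := hp.inter U hU _ (h h1)
    have h3 : U ∩ (V \ U) = ∅ := by
      ext ω
      simp only [Set.mem_inter_iff, Set.mem_sdiff, Set.mem_empty_iff_false, iff_false]
      exact fun h4 => h4.2.2 h4.1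
    rw [h3] at h2
    exact absurd h2 hp.ne

theorem uf_uniq [Nontrivial K] {p r : Set (Set Ω)} (hp : IsUF R p) (hr : IsUF R r)
    (β : K →* K) (h : ∀ f : BPow K R hR, evU hp f = β (evU hr f)) :
    r = p ∧ ∀ k, β k = k := by
  have h1 : r ⊆ p := by
    intro U hU
    by_contra hUp
    obtain ⟨V, hV⟩ := hp.nonempty
    have h2 : V \ U ∈ p := by
      rcases hp.prime V hV U (hr.sub hU) with h3 | h3
      · exact absurd (hp.mono _ h3 _ (hr.sub hU) Set.inter_subset_right) hUp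
      · exact h3
    obtain ⟨k, hk⟩ := exists_ne (1 : K)
    have h3 := h (dlt hR (V \ U) (hp.sub h2) k)
    rw [evU_eq hp h2 (fun ω hω => dlt_mem _ k hω),
      evU_eq hr hU (fun ω hω => dlt_notMem _ k (fun h4 => h4.2 hω)), map_one] at h3
    exact hk h3
  refine ⟨uf_sub_eq hp hr h1, fun k => ?_⟩
  obtain ⟨U, hU⟩ := hr.nonempty
  have h3 := h (dlt hR U (hr.sub hU) k)
  rw [evU_eq hp (h1 hU) (fun ω hω => dlt_mem _ k hω), evU_eq hr hU (fun ω hω => dlt_mem _ k hω)]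
    at h3
  exact h3.symm

/-- a group with trivial centre which is not a direct product -/
def Indec (K : Type) [Group K] : Prop :=
  Subgroup.center K = ⊥ ∧ ∀ A B : Subgroup K, (∀ a ∈ A, ∀ b ∈ B, a * b = b * a) →
    A ⊓ B = ⊥ → A ⊔ B = ⊤ → A = ⊥ ∨ B = ⊥

/-- the dichotomy -/
theorem dich (hK : Indec K) (ψ : BPow K R hR →* K) (hψ : Function.Surjective ψ) (U : Set Ω)
    (hU : U ∈ R) :
    (∀ f : BPow K R hR, (∀ ω, ω ∉ U → f.1 ω = 1) → ψ f = 1) ∨
      ∀ f : BPow K R hR, (∀ ω ∈ U, f.1 ω = 1) → ψ f = 1 := by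
  obtain ⟨A, hA⟩ : ∃ A : Subgroup K, ∀ k, k ∈ A ↔ ∃ f : BPow K R hR, (∀ ω, ω ∉ U → f.1 ω = 1) ∧
      ψ f = k := by
    refine ⟨{ carrier := {k | ∃ f : BPow K R hR, (∀ ω, ω ∉ U → f.1 ω = 1) ∧ ψ f = k}
              one_mem' := ⟨1, fun _ _ => rfl, map_one ψ⟩
              mul_mem' := ?_
              inv_mem' := ?_ }, fun k => Iff.rfl⟩
    · rintro _ _ ⟨f, hf, rfl⟩ ⟨g, hg, rfl⟩
      refine ⟨f * g, fun ω hω => ?_, map_mul ψ _ _⟩
      change f.1 ω * g.1 ω = 1
      rw [hf ω hω, hg ω hω, mul_one]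
    · rintro _ ⟨f, hf, rfl⟩
      refine ⟨f⁻¹, fun ω hω => ?_, map_inv ψ _⟩
      change (f.1 ω)⁻¹ = 1
      rw [hf ω hω, inv_one]
  obtain ⟨B, hB⟩ : ∃ B : Subgroup K, ∀ k, k ∈ B ↔ ∃ f : BPow K R hR, (∀ ω ∈ U, f.1 ω = 1) ∧
      ψ f = k := by
    refine ⟨{ carrier := {k | ∃ f : BPow K R hR, (∀ ω ∈ U, f.1 ω = 1) ∧ ψ f = k}
              one_mem' := ⟨1, fun _ _ => rfl, map_one ψ⟩
              mul_mem' := ?_
              inv_mem' := ?_ }, fun k => Iff.rfl⟩
    · rintro _ _ ⟨f, hf, rfl⟩ ⟨g, hg, rfl⟩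
      refine ⟨f * g, fun ω hω => ?_, map_mul ψ _ _⟩
      change f.1 ω * g.1 ω = 1
      rw [hf ω hω, hg ω hω, mul_one]
    · rintro _ ⟨f, hf, rfl⟩
      refine ⟨f⁻¹, fun ω hω => ?_, map_inv ψ _⟩
      change (f.1 ω)⁻¹ = 1
      rw [hf ω hω, inv_one]
  have hcomm : ∀ a ∈ A, ∀ b ∈ B, a * b = b * a := by
    intro a ha b hb
    obtain ⟨f, hf, rfl⟩ := (hA a).1 ha
    obtain ⟨g, hg, rfl⟩ := (hB b).1 hb
    rw [← map_mul, ← map_mul]
    congr 1
    refine Subtype.ext (funext fun ω => ?_)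
    change f.1 ω * g.1 ω = g.1 ω * f.1 ω
    by_cases hω : ω ∈ U
    · rw [hg ω hω, mul_one, one_mul]
    · rw [hf ω hω, mul_one, one_mul]
  have hsup : A ⊔ B = ⊤ := by
    rw [eq_top_iff]
    intro k _
    obtain ⟨f, rfl⟩ := hψ k
    have h1 : f = rst U hU f * ((rst U hU f)⁻¹ * f) := by group
    rw [h1, map_mul]
    refine mul_mem (Subgroup.mem_sup_left ((hA _).2 ⟨_, fun ω hω => rst_notMem hU f hω, rfl⟩))
      (Subgroup.mem_sup_right ((hB _).2 ⟨_, fun ω hω => ?_, rfl⟩))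
    change ((rst U hU f).1 ω)⁻¹ * f.1 ω = 1
    rw [rst_mem hU f hω, inv_mul_cancel]
  have hinf : A ⊓ B = ⊥ := by
    rw [eq_bot_iff, ← hK.1]
    intro x hx
    rw [Subgroup.mem_center_iff]
    have h1 : (⊤ : Subgroup K) ≤ Subgroup.centralizer {x} := by
      rw [← hsup]
      refine sup_le (fun a ha => ?_) (fun b hb => ?_)
      · rw [Subgroup.mem_centralizer_singleton_iff]
        exact hcomm a ha x hx.2
      · rw [Subgroup.mem_centralizer_singleton_iff]
        exact (hcomm x hx.1 b hb).symm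
    intro g
    exact Subgroup.mem_centralizer_singleton_iff.1 (h1 (Subgroup.mem_top g))
  rcases hK.2 A B hcomm hinf hsup with h | h
  · refine Or.inl fun f hf => ?_
    have h1 := (hA (ψ f)).2 ⟨f, hf, rfl⟩
    rw [h] at h1
    exact h1
  · refine Or.inr fun f hf => ?_
    have h1 := (hB (ψ f)).2 ⟨f, hf, rfl⟩
    rw [h] at h1
    exact h1

/-- all surjective homomorphisms to `K` are given by ultrafilters -/
theorem surj_ev [Nontrivial K] (hK : Indec K) (ψ : BPow K R hR →* K)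
    (hψ : Function.Surjective ψ) :
    ∃ (q : Set (Set Ω)) (hq : IsUF R q) (β : K →* K), ∀ f, ψ f = β (evU hq f) := by
  obtain ⟨q, hqd⟩ : ∃ q : Set (Set Ω),
      q = {U | U ∈ R ∧ ∀ f : BPow K R hR, (∀ ω ∈ U, f.1 ω = 1) → ψ f = 1} := ⟨_, rfl⟩
  have hinter : ∀ U ∈ q, ∀ V ∈ q, U ∩ V ∈ q := by
    intro U hU V hV
    rw [hqd] at hU hV ⊢
    refine ⟨hR.inter_mem hU.1 hV.1, fun f hf => ?_⟩
    have h1 : f = rst U hU.1 f * ((rst U hU.1 f)⁻¹ * f) := by group
    have h2 : ψ (rst U hU.1 f) = 1 := by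
      refine hV.2 _ fun ω hω => ?_
      by_cases hωU : ω ∈ U
      · rw [rst_mem hU.1 f hωU, hf ω ⟨hωU, hω⟩]
      · exact rst_notMem hU.1 f hωU
    have h3 : ψ ((rst U hU.1 f)⁻¹ * f) = 1 := by
      refine hU.2 _ fun ω hω => ?_
      change ((rst U hU.1 f).1 ω)⁻¹ * f.1 ω = 1
      rw [rst_mem hU.1 f hω, inv_mul_cancel]
    rw [h1, map_mul, h2, h3, mul_one]
  have hq : IsUF R q := by
    refine ⟨fun U hU => ?_, fun h => ?_, ?_, fun U hU V hV hUV => ?_, hinter,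
      fun U hU V hV => ?_⟩
    · rw [hqd] at hU
      exact hU.1
    · rw [hqd] at h
      obtain ⟨k, hk⟩ := exists_ne (1 : K)
      obtain ⟨f, rfl⟩ := hψ k
      exact hk (h.2 f fun ω hω => absurd hω (Set.notMem_empty ω))
    · obtain ⟨k, hk⟩ := exists_ne (1 : K)
      obtain ⟨f, rfl⟩ := hψ k
      have h1 := supp_mem hR f.2.1 f.2.2
      refine ⟨{ω | f.1 ω ≠ 1}, ?_⟩
      rw [hqd]
      refine ⟨h1, ?_⟩
      rcases dich hK ψ hψ _ h1 with h2 | h2
      · refine absurd (h2 f fun ω hω => ?_) hk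
        by_contra h3
        exact hω h3
      · exact h2
    · rw [hqd] at hU ⊢
      exact ⟨hV, fun f hf => hU.2 f fun ω hω => hf ω (hUV hω)⟩
    · rcases dich hK ψ hψ V hV with h2 | h2
      · refine Or.inr ?_
        rw [hqd] at hU ⊢
        refine ⟨hR.sdiff_mem hU.1 hV, fun f hf => ?_⟩
        have h1 : f = rst V hV f * ((rst V hV f)⁻¹ * f) := by group
        rw [h1, map_mul, h2 _ (fun ω hω => rst_notMem hV f hω), one_mul]
        refine hU.2 _ fun ω hω => ?_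
        change ((rst V hV f).1 ω)⁻¹ * f.1 ω = 1
        by_cases hωV : ω ∈ V
        · rw [rst_mem hV f hωV, inv_mul_cancel]
        · rw [rst_notMem hV f hωV, hf ω ⟨hω, hωV⟩, inv_one, mul_one]
      · refine Or.inl (hinter U hU V ?_)
        rw [hqd]
        exact ⟨hV, h2⟩
  obtain ⟨U, hU⟩ := hq.nonempty
  refine ⟨q, hq, ⟨⟨fun k => ψ (dlt hR U (hq.sub hU) k), ?_⟩, ?_⟩, fun f => ?_⟩
  · have h5 : dlt hR U (hq.sub hU) (1 : K) = 1 := by
      refine Subtype.ext (funext fun ω => ?_)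
      by_cases h : ω ∈ U
      · exact dlt_mem _ _ h
      · exact dlt_notMem _ _ h
    change ψ (dlt hR U (hq.sub hU) (1 : K)) = 1
    rw [h5, map_one]
  · intro k l
    change ψ (dlt hR U _ (k * l)) = _
    rw [dlt_mul, map_mul]
  · change ψ f = ψ (dlt hR U (hq.sub hU) (evU hq f))
    obtain ⟨V, hV, h1⟩ := evU_spec hq f
    have h2 := hinter U hU V hV
    rw [hqd] at h2
    have h3 := h2.2 (f * (dlt hR U (hq.sub hU) (evU hq f))⁻¹) (fun ω hω => by
      change f.1 ω * ((dlt hR U (hq.sub hU) (evU hq f)).1 ω)⁻¹ = 1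
      rw [dlt_mem _ _ hω.1, h1 ω hω.2, mul_inv_cancel])
    rw [map_mul, map_inv, mul_inv_eq_one] at h3
    exact h3

/-- automorphisms permute the ultrafilters -/
theorem aut_ev [Nontrivial K] (hK : Indec K) (α : BPow K R hR ≃* BPow K R hR)
    {p : Set (Set Ω)} (hp : IsUF R p) :
    ∃ (q : Set (Set Ω)) (hq : IsUF R q) (β : MulAut K), ∀ f, evU hp (α f) = β (evU hq f) := by
  obtain ⟨q, hq, β, h1⟩ := surj_ev hK ((evU hp).comp α.toMonoidHom)
    ((evU_surj hp).comp α.surjective)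
  obtain ⟨r, hr, β', h2⟩ := surj_ev hK ((evU hq).comp α.symm.toMonoidHom)
    ((evU_surj hq).comp α.symm.surjective)
  have h1' : ∀ f, evU hp (α f) = β (evU hq f) := h1
  have h2' : ∀ f, evU hq (α.symm f) = β' (evU hr f) := h2
  obtain ⟨h3, h4⟩ := uf_uniq (hR := hR) hp hr (β.comp β') fun f => by
    have h5 := h1' (α.symm f)
    rw [MulEquiv.apply_symm_apply, h2'] at h5
    exact h5
  subst h3
  obtain ⟨h6, h7⟩ := uf_uniq (hR := hR) hq hq (β'.comp β) fun f => by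
    have h5 := h2' (α f)
    rw [MulEquiv.symm_apply_apply, h1'] at h5
    exact h5
  exact ⟨q, hq, MonoidHom.toMulEquiv β β' (MonoidHom.ext h7) (MonoidHom.ext h4), h1'⟩

end ultra

/-- **extensions of Boolean powers** -/
theorem C_bpow {C : ∀ (G : Type) [Group G], Prop} (hC : ClosedE C) (K : Type) [Group K]
    [Nontrivial K] (hK : Indec K) (hKC : ∀ α : MulAut K, C (MT α)) {Ω : Type} (R : Set (Set Ω))
    (hR : IsSetRing R) {Γ : Type} [Group Γ] (N : Subgroup Γ) [N.Normal] (e : N ≃* BPow K R hR)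
    (hQ : C (Γ ⧸ N)) : C Γ := by
  refine main hC N hQ (I := {p : Set (Set Ω) // IsUF R p}) (fun _ => K) (fun _ _ => Set.univ)
    ⟨fun _ _ => trivial, fun _ _ _ _ => trivial, fun _ _ _ _ _ _ _ => trivial⟩
    (fun _ α _ => hKC α) (fun p => (evU p.2).comp e.toMonoidHom) ?_ ?_ ?_
  · intro x hx
    have h1 : e x = 1 := by
      refine Subtype.ext (funext fun ω => ?_)
      by_contra h2
      have h3 : (e x).1 ⁻¹' {(e x).1 ω} ∈ R := (e x).2.2 _ h2
      have hp : IsUF R {U | U ∈ R ∧ ω ∈ U} := by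
        refine ⟨fun U hU => hU.1, fun h => h.2, ⟨_, h3, rfl⟩, fun U hU V hV hUV =>
          ⟨hV, hUV hU.2⟩, fun U hU V hV => ⟨hR.inter_mem hU.1 hV.1, hU.2, hV.2⟩,
          fun U hU V hV => ?_⟩
        by_cases h : ω ∈ V
        · exact Or.inl ⟨hR.inter_mem hU.1 hV, hU.2, h⟩
        · exact Or.inr ⟨hR.sdiff_mem hU.1 hV, hU.2, h⟩
      have h4 : evU hp (e x) = 1 := hx ⟨_, hp⟩
      have h5 : evU hp (e x) = (e x).1 ω := evU_eq hp ⟨h3, rfl⟩ fun ω' hω' => hω'
      exact h2 (h5.symm.trans h4)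
    exact e.injective (h1.trans (map_one e).symm)
  · intro p g
    -- conjugation by `g⁻¹`, transported
    obtain ⟨σ, hσ⟩ : ∃ σ : BPow K R hR ≃* BPow K R hR,
        ∀ x y : N, (y : Γ) = g * x * g⁻¹ → σ (e y) = e x := by
      refine ⟨(e.symm.trans (MulAut.conjNormal g⁻¹)).trans e, fun x y hxy => ?_⟩
      change e (MulAut.conjNormal g⁻¹ (e.symm (e y))) = e x
      rw [MulEquiv.symm_apply_apply]
      congr 1
      refine Subtype.ext ?_
      rw [MulAut.conjNormal_apply, hxy]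
      group
    obtain ⟨q, hq, β, hβ⟩ := aut_ev hK σ p.2
    refine ⟨⟨q, hq⟩, β.symm, trivial, fun x y hxy => ?_⟩
    change evU hq (e y) = β.symm (evU p.2 (e x))
    rw [← hσ x y hxy, hβ]
    exact (MulEquiv.symm_apply_apply β _).symm
  · intro E hE
    obtain ⟨J, hJ, h1⟩ := fin_types (fun (p : {p : Set (Set Ω) // IsUF R p}) (x : N) =>
      evU p.2 (e x)) (fun x => by
        refine ((e x).2.1).subset ?_
        rintro _ ⟨p, rfl⟩
        obtain ⟨U, hU, h2⟩ := evU_spec p.2 (e x)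
        have h3 : U.Nonempty := by
          rw [Set.nonempty_iff_ne_empty]
          intro h4
          rw [h4] at hU
          exact p.2.ne hU
        obtain ⟨ω, hω⟩ := h3
        exact ⟨ω, h2 ω hω⟩) E hE
    refine ⟨J, hJ, fun p => ?_⟩
    obtain ⟨p', hp', h2⟩ := h1 p
    exact ⟨p', hp', MulEquiv.refl K, trivial, fun x hx => h2 x hx⟩

end Pool.Agent.K3h28.FR
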