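import Pool.Agent.K3h28.FR.Walk
import Pool.Agent.Y462.SS.Base

/-!
# Kernels with a locally finite family of homomorphisms

Helper28, for MP_e40716_gt (FiniteRangeFunctions).
-/

set_option autoImplicit false

namespace Pool.Agent.K3h28.FR

open Pool.Agent.Y110.FJ
open Pool.Agent.Y462.SS (Closed Wr)

/-- a set of isomorphisms between the groups `K i` which is closed under composition and inverses and
contains the inner automorphisms -/
structure IsGpd {I : Type} (K : I → Type) [∀ i, Group (K i)] (A : ∀ i j, Set (K i ≃* K j)) :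
    Prop where
  conj : ∀ (i : I) (k : K i), MulAut.conj k ∈ A i i
  symm : ∀ (i j : I), ∀ α ∈ A i j, α.symm ∈ A j i
  trans : ∀ (i j k : I), ∀ α ∈ A i j, ∀ β ∈ A j k, α.trans β ∈ A i k

/-- the automorphisms of one of the groups -/
def IsGpd.sub {I : Type} {K : I → Type} [∀ i, Group (K i)] {A : ∀ i j, Set (K i ≃* K j)}
    (h : IsGpd K A) (i : I) : Subgroup (MulAut (K i)) where
  carrier := A i i
  one_mem' := by
    have h1 := h.conj i 1
    rwa [map_one] at h1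
  mul_mem' := fun {a b} ha hb => h.trans i i i b hb a ha
  inv_mem' := fun {a} ha => h.symm i i a ha

/-- realization in a finite graph of homomorphisms to different groups -/
theorem RR_gpd {C : ∀ (G : Type) [Group G], Prop} (hC : ClosedE C) {M : Type} [Group M]
    (Rel : M → M → Prop) {V : Type} [Finite V] (K : V → Type) [∀ v, Group (K v)]
    (A : ∀ u v, Set (K u ≃* K v)) (hG : IsGpd K A) (hA : ∀ v, ∀ α ∈ A v v, C (MT α))
    (Ψ : ∀ v, M →* K v)
    (h1 : ∀ u, ∃ u', ∃ α ∈ A u u', ∀ x y, Rel x y → Ψ u' y = α (Ψ u x))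
    (h2 : ∀ u, ∃ u', ∃ α ∈ A u' u, ∀ x y, Rel x y → Ψ u y = α (Ψ u' x)) :
    RR C Rel (fun w => ∀ u, Ψ u w = 1) := by
  refine RR.all hC.base _ fun v => ?_
  -- the vertices whose groups are identified with the group of `v`
  have hb : ∀ u : {u : V // (A u v).Nonempty}, ∃ β, β ∈ A u.1 v := fun u => u.2
  choose β hβ using hb
  have hvv : (A v v).Nonempty := ⟨_, hG.conj v 1⟩
  have key := RR_graph hC (hG.sub v) (hA v) (hG.conj v) Rel
    (V := {u : V // (A u v).Nonempty}) (fun u => (β u).toMonoidHom.comp (Ψ u.1)) ?_ ?_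
  · refine key.mono fun w hw => ?_
    have h3 : β ⟨v, hvv⟩ (Ψ v w) = 1 := hw ⟨v, hvv⟩
    exact (map_eq_one_iff _ (β ⟨v, hvv⟩).injective).1 h3
  · intro u
    obtain ⟨u', α, hα, h3⟩ := h1 u.1
    have hu' : (A u' v).Nonempty :=
      ⟨_, hG.trans _ _ _ _ (hG.symm _ _ _ hα) _ (hβ u)⟩
    refine ⟨⟨u', hu'⟩, ((β u).symm.trans α).trans (β ⟨u', hu'⟩),
      hG.trans _ _ _ _ (hG.trans _ _ _ _ (hG.symm _ _ _ (hβ u)) _ hα) _ (hβ ⟨u', hu'⟩),
      fun x y hxy => ?_⟩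
    change β ⟨u', hu'⟩ (Ψ u' y) = β ⟨u', hu'⟩ (α ((β u).symm (β u (Ψ u.1 x))))
    rw [MulEquiv.symm_apply_apply, h3 x y hxy]
  · intro u
    obtain ⟨u', α, hα, h3⟩ := h2 u.1
    have hu' : (A u' v).Nonempty := ⟨_, hG.trans _ _ _ _ hα _ (hβ u)⟩
    refine ⟨⟨u', hu'⟩, ((β ⟨u', hu'⟩).symm.trans α).trans (β u),
      hG.trans _ _ _ _ (hG.trans _ _ _ _ (hG.symm _ _ _ (hβ ⟨u', hu'⟩)) _ hα) _ (hβ u),
      fun x y hxy => ?_⟩
    change β u (Ψ u.1 y) = β u (α ((β ⟨u', hu'⟩).symm (β ⟨u', hu'⟩ (Ψ u' x))))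
    rw [MulEquiv.symm_apply_apply, h3 x y hxy]

/-- conjugation by `g` on `E` is realized by a finite graph of homomorphisms -/
def GraphRealized (C : ∀ (G : Type) [Group G], Prop) {Γ : Type} [Group Γ] (g : Γ) (E : Set Γ) :
    Prop :=
  ∃ (V : Type) (_ : Finite V) (K : V → Type) (_ : ∀ v, Group (K v))
    (A : ∀ u v, Set (K u ≃* K v))
    (Ψ : ∀ v, ↥(Subgroup.closure (E ∪ (fun x => g * x * g⁻¹) '' E)) →* K v),
    IsGpd K A ∧ (∀ v, ∀ α ∈ A v v, C (K v ⋊[zpowersHom (MulAut (K v)) α] Multiplicative ℤ)) ∧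
    (∀ w, (∀ v, Ψ v w = 1) → w = 1) ∧
    ∀ v, (∃ u, ∃ α ∈ A v u, ∀ x y : ↥(Subgroup.closure (E ∪ (fun x => g * x * g⁻¹) '' E)),
        (x : Γ) ∈ E → (y : Γ) = g * x * g⁻¹ → Ψ u y = α (Ψ v x)) ∧
      ∃ u, ∃ α ∈ A u v, ∀ x y : ↥(Subgroup.closure (E ∪ (fun x => g * x * g⁻¹) '' E)),
        (x : Γ) ∈ E → (y : Γ) = g * x * g⁻¹ → Ψ v y = α (Ψ u x)

theorem crit_graph {C : ∀ (G : Type) [Group G], Prop} (hC : ClosedE C) {Γ : Type} [Group Γ]
    (N : Subgroup Γ) [N.Normal] (hQ : C (Γ ⧸ N))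
    (h : ∀ (g : Γ) (E : Set Γ), E.Finite → E ⊆ N → GraphRealized C g E) : C Γ := by
  refine Pool.Agent.R779.FJ.t_crit Pool.Agent.Y529.FJ.t_ext
    (Pool.Agent.Y961.FJ.t_perm Pool.Agent.Y529.FJ.t_ext) C hC Γ N hQ fun g E hE hEN => ?_
  obtain ⟨V, _, K, _, A, Ψ, hG, hA, hsep, hV⟩ := h g E hE hEN
  obtain ⟨P, _, f, p, h1, h2, h3⟩ := RR_gpd hC
    (M := ↥(Subgroup.closure (E ∪ (fun x => g * x * g⁻¹) '' E)))
    (fun x y => (x : Γ) ∈ E ∧ (y : Γ) = g * x * g⁻¹) K A hG hA Ψ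
    (fun u => by
      obtain ⟨u', α, hα, h4⟩ := (hV u).1
      exact ⟨u', α, hα, fun x y hxy => h4 x y hxy.1 hxy.2⟩)
    (fun u => by
      obtain ⟨u', α, hα, h4⟩ := (hV u).2
      exact ⟨u', α, hα, fun x y hxy => h4 x y hxy.1 hxy.2⟩)
  exact ⟨P, _, f, p, h1, (injective_iff_map_eq_one f).2 fun w hw => hsep w (h3 w hw),
    fun x y hx hy => h2 x y ⟨hx, hy⟩⟩

/-- **kernels with a locally finite family of homomorphisms** -/
theorem main {C : ∀ (G : Type) [Group G], Prop} (hC : ClosedE C) {Γ : Type} [Group Γ]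
    (N : Subgroup Γ) [N.Normal] (hQ : C (Γ ⧸ N)) {I : Type} (K : I → Type) [∀ i, Group (K i)]
    (A : ∀ i j, Set (K i ≃* K j)) (hG : IsGpd K A)
    (hA : ∀ i, ∀ α ∈ A i i, C (K i ⋊[zpowersHom (MulAut (K i)) α] Multiplicative ℤ))
    (φ : ∀ i, N →* K i) (hsep : ∀ x, (∀ i, φ i x = 1) → x = 1)
    (hinv : ∀ (i : I) (g : Γ), ∃ j, ∃ α ∈ A i j, ∀ x y : N, (y : Γ) = g * x * g⁻¹ →
      φ j y = α (φ i x))
    (hfin : ∀ E : Set N, E.Finite → ∃ J : Set I, J.Finite ∧ ∀ i, ∃ j ∈ J, ∃ α ∈ A i j,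
      ∀ x ∈ E, φ j x = α (φ i x)) : C Γ := by
  refine crit_graph hC N hQ fun g E hE hEN => ?_
  obtain ⟨E', hE'⟩ : ∃ E' : Set Γ, E' = E ∪ (fun x => g * x * g⁻¹) '' E := ⟨_, rfl⟩
  have hE'f : E'.Finite := by rw [hE']; exact hE.union (hE.image _)
  have hE'N : E' ⊆ N := by
    rw [hE']
    refine Set.union_subset hEN ?_
    rintro _ ⟨x, hx, rfl⟩
    exact Subgroup.Normal.conj_mem inferInstance x (hEN hx) g
  have hcl : Subgroup.closure E' ≤ N := (Subgroup.closure_le _).2 hE'N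
  obtain ⟨J, hJ, hJ2⟩ := hfin (Subtype.val ⁻¹' E') (hE'f.preimage Subtype.val_injective.injOn)
  have hJf : Finite J := hJ
  unfold GraphRealized
  rw [← hE']
  have hsub : ∀ (i j : I) (α : K i ≃* K j), (∀ x : N, x ∈ (Subtype.val ⁻¹' E' : Set N) →
      φ j x = α (φ i x)) → ∀ w : Subgroup.closure E', φ j (Subgroup.inclusion hcl w) =
      α (φ i (Subgroup.inclusion hcl w)) := by
    intro i j α hα w
    obtain ⟨w, hw⟩ := w
    induction hw using Subgroup.closure_induction with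
    | mem x hx => exact hα ⟨x, hE'N hx⟩ hx
    | one =>
      have h1 : Subgroup.inclusion hcl ⟨1, one_mem _⟩ = 1 := rfl
      rw [h1, map_one, map_one, map_one]
    | mul x y hx hy ihx ihy =>
      have h1 : Subgroup.inclusion hcl ⟨x * y, mul_mem hx hy⟩ =
        Subgroup.inclusion hcl ⟨x, hx⟩ * Subgroup.inclusion hcl ⟨y, hy⟩ := rfl
      rw [h1, map_mul, map_mul, map_mul, ihx, ihy]
    | inv x hx ih =>
      have h1 : Subgroup.inclusion hcl ⟨x⁻¹, inv_mem hx⟩ = (Subgroup.inclusion hcl ⟨x, hx⟩)⁻¹ := rfl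
      rw [h1, map_inv, map_inv, map_inv, ih]
  refine ⟨J, hJf, fun v => K v.1, fun v => inferInstance, fun u v => A u.1 v.1,
    fun v => (φ v.1).comp (Subgroup.inclusion hcl), ?_, fun v => hA v.1, ?_, fun v => ⟨?_, ?_⟩⟩
  · exact ⟨fun v k => hG.conj v.1 k, fun u v α hα => hG.symm _ _ α hα,
      fun u v w α hα β hβ => hG.trans _ _ _ α hα β hβ⟩
  · intro w hw
    have h1 : Subgroup.inclusion hcl w = 1 := by
      refine hsep _ fun i => ?_
      obtain ⟨j, hj, α, hα, h2⟩ := hJ2 i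
      have h3 := hsub i j α h2 w
      have h4 : φ j (Subgroup.inclusion hcl w) = 1 := hw ⟨j, hj⟩
      rw [h4] at h3
      exact (map_eq_one_iff _ α.injective).1 h3.symm
    exact (Subgroup.inclusion_injective hcl) (h1.trans (map_one _).symm)
  · obtain ⟨j, α, hα, h1⟩ := hinv v.1 g
    obtain ⟨j', hj', β, hβ, h2⟩ := hJ2 j
    refine ⟨⟨j', hj'⟩, α.trans β, hG.trans _ _ _ α hα β hβ, fun x y hx hy => ?_⟩
    change φ j' (Subgroup.inclusion hcl y) = β (α (φ v.1 (Subgroup.inclusion hcl x)))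
    rw [hsub j j' β h2 y, h1 (Subgroup.inclusion hcl x) (Subgroup.inclusion hcl y) hy]
  · obtain ⟨j, α, hα, h1⟩ := hinv v.1 g⁻¹
    obtain ⟨j', hj', β, hβ, h2⟩ := hJ2 j
    refine ⟨⟨j', hj'⟩, (α.trans β).symm, hG.symm _ _ _ (hG.trans _ _ _ α hα β hβ),
      fun x y hx hy => ?_⟩
    change φ v.1 (Subgroup.inclusion hcl y) =
      (α.trans β).symm (φ j' (Subgroup.inclusion hcl x))
    rw [MulEquiv.eq_symm_apply]
    change β (α (φ v.1 (Subgroup.inclusion hcl y))) = _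
    rw [hsub j j' β h2 x, h1 (Subgroup.inclusion hcl y) (Subgroup.inclusion hcl x)]
    change (x : Γ) = g⁻¹ * y * g⁻¹⁻¹
    rw [hy]
    group

/-! ### inner automorphisms -/

theorem C_conj {C : ∀ (G : Type) [Group G], Prop} (hC : Closed C) {K : Type} [Group K] (hK : C K)
    (k : K) : C (MT (MulAut.conj k)) := by
  have h1 : ∀ (n : ℤ) (x : K), ((MulAut.conj k) ^ n) x = k ^ n * x * (k ^ n)⁻¹ := by
    intro n x
    rw [← map_zpow, MulAut.conj_apply]
  let f : MT (MulAut.conj k) →* K :=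
    { toFun := fun x => x.left * k ^ (Multiplicative.toAdd x.right)
      map_one' := by simp
      map_mul' := fun x y => by
        rw [mt_left, h1, SemidirectProduct.mul_right, toAdd_mul, zpow_add]
        group }
  refine hC.of_injective _ _ (f.prod SemidirectProduct.rightHom)
    ((injective_iff_map_eq_one _).2 fun x hx => ?_) (hC.prod _ _ hK hC.int)
  have h2 : f x = 1 := congrArg Prod.fst hx
  have h3 : x.right = 1 := congrArg Prod.snd hx
  have h4 : x.left * k ^ (Multiplicative.toAdd x.right) = 1 := h2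
  rw [h3, toAdd_one, zpow_zero, mul_one] at h4
  exact SemidirectProduct.ext h4 h3

end Pool.Agent.K3h28.FR
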