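import Pool.Agent.R779.FJ.Col

/-!
# Mapping tori and realization of relations

Helper28, for MP_e40716_gt (FiniteRangeFunctions).
-/

set_option autoImplicit false

namespace Pool.Agent.K3h28.FR

open Pool.Agent.Y110.FJ
open Pool.Agent.Y462.SS (Closed)

/-- the mapping torus of an automorphism -/
abbrev MT {G : Type} [Group G] (α : MulAut G) : Type :=
  G ⋊[zpowersHom (MulAut G) α] Multiplicative ℤ

theorem mt_left {G : Type} [Group G] (α : MulAut G) (x y : MT α) :
    (x * y).left = x.left * (α ^ (Multiplicative.toAdd x.right)) y.left := rfl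

/-- a homomorphism that intertwines two automorphisms intertwines their powers -/
theorem inter {G H : Type} [Group G] [Group H] (f : G →* H) (α : MulAut G) (β : MulAut H)
    (h : ∀ x, f (α x) = β (f x)) (k : ℤ) : ∀ x, f ((α ^ k) x) = (β ^ k) (f x) := by
  have h' : ∀ x, f (α⁻¹ x) = β⁻¹ (f x) := by
    intro x
    have h1 := h (α⁻¹ x)
    rw [MulAut.apply_inv_self] at h1
    rw [h1, MulAut.inv_apply_self]
  induction k with
  | zero => intro x; simp
  | succ n ih =>
    intro x
    rw [zpow_add_one, zpow_add_one, MulAut.mul_apply, MulAut.mul_apply, ih, h]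
  | pred n ih =>
    intro x
    rw [zpow_sub_one, zpow_sub_one, MulAut.mul_apply, MulAut.mul_apply, ih, h']

/-- the induced map of the mapping tori -/
def mtMap {G H : Type} [Group G] [Group H] (f : G →* H) (α : MulAut G) (β : MulAut H)
    (h : ∀ x, f (α x) = β (f x)) : MT α →* MT β :=
  SemidirectProduct.map f (MonoidHom.id _) (fun g => MonoidHom.ext fun x =>
    inter f α β h (Multiplicative.toAdd g) x)

theorem mtMap_left {G H : Type} [Group G] [Group H] (f : G →* H) (α : MulAut G) (β : MulAut H)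
    (h : ∀ x, f (α x) = β (f x)) (x : MT α) : (mtMap f α β h x).left = f x.left := rfl

theorem mtMap_right {G H : Type} [Group G] [Group H] (f : G →* H) (α : MulAut G) (β : MulAut H)
    (h : ∀ x, f (α x) = β (f x)) (x : MT α) : (mtMap f α β h x).right = x.right := rfl

/-- the generator of `ℤ` -/
def gen {G : Type} [Group G] (α : MulAut G) : MT α := SemidirectProduct.inr (Multiplicative.ofAdd 1)

theorem gen_conj {G : Type} [Group G] (α : MulAut G) (x : G) :
    gen α * SemidirectProduct.inl x * (gen α)⁻¹ = SemidirectProduct.inl (α x) := by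
  have h1 := SemidirectProduct.inl_aut (φ := zpowersHom (MulAut G) α) (Multiplicative.ofAdd 1) x
  have h2 : (zpowersHom (MulAut G) α) (Multiplicative.ofAdd 1) = α := by
    rw [zpowersHom_apply, toAdd_ofAdd, zpow_one]
  rw [h2, map_inv] at h1
  exact h1.symm

/-- the twisted permutation automorphism of a power: `s r` is moved to the place `π r` and changed by
`γ r` -/
def tw {R K : Type} [Group K] (π : Equiv.Perm R) (γ : R → MulAut K) : MulAut (R → K) where
  toFun s := fun r => γ (π.symm r) (s (π.symm r))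
  invFun s := fun r => (γ r).symm (s (π r))
  left_inv s := by
    funext r
    simp
  right_inv s := by
    funext r
    simp
  map_mul' s t := by
    funext r
    simp

theorem tw_apply {R K : Type} [Group K] (π : Equiv.Perm R) (γ : R → MulAut K) (s : R → K) (r : R) :
    tw π γ s r = γ (π.symm r) (s (π.symm r)) := rfl

theorem tw_apply' {R K : Type} [Group K] (π : Equiv.Perm R) (γ : R → MulAut K) (s : R → K) (r : R) :
    tw π γ s (π r) = γ r (s r) := by
  rw [tw_apply, Equiv.symm_apply_apply]

theorem tw_inv_apply {R K : Type} [Group K] (π : Equiv.Perm R) (γ : R → MulAut K) (s : R → K)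
    (r : R) : (tw π γ)⁻¹ s r = (γ r)⁻¹ (s (π r)) := rfl

theorem tw_zpow {R K : Type} [Group K] (A : Subgroup (MulAut K)) (π : Equiv.Perm R)
    (γ : R → MulAut K) (hγ : ∀ r, γ r ∈ A) (k : ℤ) :
    ∀ r, ∃ α ∈ A, ∀ s : R → K, ((tw π γ) ^ k) s ((π ^ k) r) = α (s r) := by
  induction k with
  | zero => exact fun r => ⟨1, one_mem _, fun s => by simp⟩
  | succ n ih =>
    intro r
    obtain ⟨α, hα, h⟩ := ih (π r)
    refine ⟨α * γ r, mul_mem hα (hγ r), fun s => ?_⟩
    rw [zpow_add_one, zpow_add_one, MulAut.mul_apply, Equiv.Perm.mul_apply, h, tw_apply']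
    rfl
  | pred n ih =>
    intro r
    obtain ⟨α, hα, h⟩ := ih (π⁻¹ r)
    refine ⟨α * (γ (π⁻¹ r))⁻¹, mul_mem hα (inv_mem (hγ _)), fun s => ?_⟩
    rw [zpow_sub_one, zpow_sub_one, MulAut.mul_apply, Equiv.Perm.mul_apply, h, tw_inv_apply]
    have h9 : π (π⁻¹ r) = r := π.apply_symm_apply r
    rw [h9]
    rfl

/-! ### realization of relations -/

/-- there are a homomorphism `f` to a group `P` in `C` and an element `p` of `P` such that
`f y = p (f x) p⁻¹` whenever `x` and `y` are related; and `f w = 1` implies `D w` -/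
def RR (C : ∀ (G : Type) [Group G], Prop) {M : Type} [Group M] (Rel : M → M → Prop)
    (D : M → Prop) : Prop :=
  ∃ (P : Type) (_ : Group P) (f : M →* P) (p : P), C P ∧
    (∀ x y, Rel x y → f y = p * f x * p⁻¹) ∧ ∀ w, f w = 1 → D w

theorem RR.mono {C : ∀ (G : Type) [Group G], Prop} {M : Type} [Group M] {Rel : M → M → Prop}
    {D D' : M → Prop} (h : RR C Rel D) (hD : ∀ w, D w → D' w) : RR C Rel D' := by
  obtain ⟨P, _, f, p, h1, h2, h3⟩ := h
  exact ⟨P, _, f, p, h1, h2, fun w hw => hD w (h3 w hw)⟩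

theorem RR.finset {C : ∀ (G : Type) [Group G], Prop} (hC : Closed C) {M : Type} [Group M]
    {Rel : M → M → Prop} {ι : Type} (D : ι → M → Prop) (h : ∀ i, RR C Rel (D i)) (S : Finset ι) :
    RR C Rel (fun w => ∀ i ∈ S, D i w) := by
  classical
  induction S using Finset.induction_on with
  | empty =>
    refine ⟨Multiplicative ℤ, inferInstance, 1, 1, hC.int, fun x y _ => by simp, fun w _ i hi => ?_⟩
    exact absurd hi (Finset.notMem_empty i)
  | insert a s ha ih =>
    obtain ⟨P, _, f, p, h1, h2, h3⟩ := ih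
    obtain ⟨P', _, f', p', h1', h2', h3'⟩ := h a
    refine ⟨P × P', inferInstance, f.prod f', (p, p'), hC.prod _ _ h1 h1', fun x y hx => ?_, ?_⟩
    · exact Prod.ext (h2 x y hx) (h2' x y hx)
    · intro w hw i hi
      have h4 : f w = 1 := congrArg Prod.fst hw
      have h5 : f' w = 1 := congrArg Prod.snd hw
      rcases Finset.mem_insert.1 hi with rfl | hi
      · exact h3' w h5
      · exact h3 w h4 i hi

theorem RR.all {C : ∀ (G : Type) [Group G], Prop} (hC : Closed C) {M : Type} [Group M]
    {Rel : M → M → Prop} {ι : Type} [Finite ι] (D : ι → M → Prop) (h : ∀ i, RR C Rel (D i)) :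
    RR C Rel (fun w => ∀ i, D i w) := by
  have := Fintype.ofFinite ι
  exact (RR.finset hC D h Finset.univ).mono fun w hw i => hw i (Finset.mem_univ i)

theorem RR.class {C : ∀ (G : Type) [Group G], Prop} (hC : Closed C) {M : Type} [Group M]
    {Rel : M → M → Prop} (h : RR C Rel (fun w => w = 1)) : C M := by
  obtain ⟨P, _, f, p, h1, h2, h3⟩ := h
  exact hC.of_injective _ _ f ((injective_iff_map_eq_one f).2 h3) h1

/-! ### twisted permutations of a finite set -/

theorem C_tw {C : ∀ (G : Type) [Group G], Prop} (hC : Closed C) {R K : Type} [Finite R] [Group K]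
    (A : Subgroup (MulAut K)) (hA : ∀ α ∈ A, C (MT α)) (π : Equiv.Perm R) (γ : R → MulAut K)
    (hγ : ∀ r, γ r ∈ A) : C (MT (tw π γ)) := by
  obtain ⟨ρ, hρ⟩ : ∃ ρ : MT (tw π γ) →* Equiv.Perm R,
      ρ = (zpowersHom (Equiv.Perm R) π).comp SemidirectProduct.rightHom := ⟨_, rfl⟩
  have hρ' : ∀ x, ρ x = π ^ (Multiplicative.toAdd x.right) := by
    intro x
    rw [hρ]
    rfl
  have hfi : ρ.ker.FiniteIndex := inferInstance
  refine hC.finiteIndex _ ρ.ker hfi ?_
  obtain ⟨m, hm⟩ : ∃ m : ℕ, m = orderOf π := ⟨_, rfl⟩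
  have hm0 : (m : ℤ) ≠ 0 := by
    rw [hm]
    exact_mod_cast (orderOf_pos π).ne'
  have hker : ∀ x : ρ.ker, (m : ℤ) ∣ Multiplicative.toAdd x.1.right := by
    intro x
    have h1 : ρ x.1 = 1 := x.2
    rw [hρ'] at h1
    rw [hm]
    exact orderOf_dvd_iff_zpow_eq_one.2 h1
  -- the automorphisms at the places
  have h2 : ∀ r, ∃ α ∈ A, ∀ s : R → K, ((tw π γ) ^ (m : ℤ)) s r = α (s r) := by
    intro r
    obtain ⟨α, hα, h⟩ := tw_zpow A π γ hγ (m : ℤ) r
    refine ⟨α, hα, fun s => ?_⟩
    have h8 : (π ^ (m : ℤ)) r = r := by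
      rw [hm, zpow_natCast, pow_orderOf_eq_one]
      rfl
    rw [← h s, h8]
  choose α hα h3 using h2
  have h4 : ∀ (r : R) (j : ℤ) (s : R → K), ((tw π γ) ^ ((m : ℤ) * j)) s r = (α r ^ j) (s r) := by
    intro r j s
    rw [zpow_mul]
    exact inter (Pi.evalMonoidHom (fun _ : R => K) r) ((tw π γ) ^ (m : ℤ)) (α r)
      (fun x => h3 r x) j s
  have h5 : ∀ r, RR C (fun _ _ : ρ.ker => False) (fun w => w.1.left r = 1) := by
    intro r
    refine ⟨MT (α r), inferInstance, ⟨⟨fun x => ⟨x.1.left r,
      Multiplicative.ofAdd (Multiplicative.toAdd x.1.right / (m : ℤ))⟩, ?_⟩, ?_⟩, 1, hA _ (hα r),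
      fun x y h => h.elim, fun w hw => ?_⟩
    · ext
      · rfl
      · simp
    · intro x y
      obtain ⟨j, hj⟩ := hker x
      ext
      · change (x.1.left * ((tw π γ) ^ (Multiplicative.toAdd x.1.right)) y.1.left) r =
          x.1.left r * (α r ^ (Multiplicative.toAdd x.1.right / (m : ℤ))) (y.1.left r)
        rw [Pi.mul_apply, hj, h4, Int.mul_ediv_cancel_left _ hm0]
      · change Multiplicative.ofAdd ((Multiplicative.toAdd x.1.right +
          Multiplicative.toAdd y.1.right) / (m : ℤ)) = _
        rw [Int.add_ediv_of_dvd_left (hker x)]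
        rfl
    · exact congrArg SemidirectProduct.left hw
  have h6 : RR C (fun _ _ : ρ.ker => False) (fun w => w.1.right = 1) :=
    ⟨Multiplicative ℤ, inferInstance, SemidirectProduct.rightHom.comp (Subgroup.subtype _), 1,
      hC.int, fun x y h => h.elim, fun w hw => hw⟩
  have h7 := RR.all hC (Rel := fun _ _ : ρ.ker => False) (ι := Option R)
    (fun o w => match o with
      | none => w.1.right = 1
      | some r => w.1.left r = 1) (fun o => match o with
      | none => h6
      | some r => h5 r)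
  refine RR.class hC (h7.mono fun w hw => Subtype.ext (SemidirectProduct.ext ?_ ?_))
  · funext r
    exact hw (some r)
  · exact hw none

/-- realization along the orbits of a permutation of a finite set -/
theorem RR_tw {C : ∀ (G : Type) [Group G], Prop} (hC : Closed C) {R K : Type} [Finite R] [Group K]
    (A : Subgroup (MulAut K)) (hA : ∀ α ∈ A, C (MT α)) {M : Type} [Group M] (Rel : M → M → Prop)
    (π : Equiv.Perm R) (φ : R → M →* K)
    (h : ∀ r, ∃ α ∈ A, ∀ x y, Rel x y → φ (π r) y = α (φ r x)) :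
    RR C Rel (fun w => ∀ r, φ r w = 1) := by
  choose γ hγ hr using h
  refine ⟨MT (tw π γ), inferInstance, SemidirectProduct.inl.comp (MonoidHom.pi φ), gen (tw π γ),
    C_tw hC A hA π γ hγ, fun x y hxy => ?_, fun w hw r => ?_⟩
  · change SemidirectProduct.inl _ = gen (tw π γ) * SemidirectProduct.inl _ * (gen (tw π γ))⁻¹
    rw [gen_conj]
    congr 1
    funext r
    obtain ⟨r', rfl⟩ := π.surjective r
    rw [tw_apply']
    exact hr r' x y hxy
  · have h1 : (SemidirectProduct.inl (MonoidHom.pi φ w) : MT (tw π γ)) = 1 := hw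
    have h2 := congrArg SemidirectProduct.left h1
    exact congrFun h2 r

end Pool.Agent.K3h28.FR
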