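import Pool.Agent.K3h28.FR.Mt

/-!
# Sequences which are periodic near both ends of `ℤ`

Helper28, for MP_e40716_gt (FiniteRangeFunctions).
-/

set_option autoImplicit false

namespace Pool.Agent.K3h28.FR

open Pool.Agent.Y110.FJ
open Pool.Agent.Y462.SS (Closed)
open Filter

/-- an end of `ℤ` -/
structure IsEnd (l : Filter ℤ) : Prop where
  add : ∀ c : ℤ, Tendsto (fun n => n + c) l l
  freq : ∀ (p : ℕ) [NeZero p] (r : ZMod p), ∃ᶠ n : ℤ in l, (n : ZMod p) = r
  lim : ∀ (X : Type) (p : ℕ) [NeZero p] (s : ℤ → X), (∀ᶠ n in l, s (n + p) = s n) →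
    ∀ r : ZMod p, ∃ k, ∀ᶠ n : ℤ in l, (n : ZMod p) = r → s n = k

theorem zmod_dvd {p : ℕ} {a b : ℤ} {r : ZMod p} (ha : (a : ZMod p) = r) (hb : (b : ZMod p) = r) :
    ∃ j : ℤ, b = a + p * j := by
  have h1 : ((b - a : ℤ) : ZMod p) = 0 := by
    rw [Int.cast_sub, ha, hb, sub_self]
  obtain ⟨j, hj⟩ := (ZMod.intCast_zmod_eq_zero_iff_dvd _ p).1 h1
  exact ⟨j, by linarith⟩

theorem isEnd_top : IsEnd atTop where
  add c := tendsto_atTop_add_const_right atTop c tendsto_id
  freq p _ r := by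
    rw [frequently_atTop]
    intro a
    refine ⟨r.val + p * |a|, ?_, ?_⟩
    · have h1 : (1 : ℤ) ≤ p := by exact_mod_cast NeZero.one_le
      have h2 := abs_nonneg a
      have h3 := le_abs_self a
      have h4 : (0 : ℤ) ≤ r.val := Int.natCast_nonneg _
      nlinarith
    · push_cast
      rw [ZMod.natCast_self, zero_mul, add_zero, ZMod.natCast_zmod_val]
  lim X p _ s h r := by
    obtain ⟨a, ha⟩ := eventually_atTop.1 h
    have h1 : ∃ b ≥ a, (b : ZMod p) = r := by
      refine ⟨r.val + p * |a|, ?_, ?_⟩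
      · have h1 : (1 : ℤ) ≤ p := by exact_mod_cast NeZero.one_le
        have h2 := abs_nonneg a
        have h3 := le_abs_self a
        have h4 : (0 : ℤ) ≤ r.val := Int.natCast_nonneg _
        nlinarith
      · push_cast
        rw [ZMod.natCast_self, zero_mul, add_zero, ZMod.natCast_zmod_val]
    obtain ⟨b, hb, hbr⟩ := h1
    refine ⟨s b, eventually_atTop.2 ⟨b, fun n hn hnr => ?_⟩⟩
    obtain ⟨j, hj⟩ := zmod_dvd hbr hnr
    have h1 : (1 : ℤ) ≤ p := by exact_mod_cast NeZero.one_le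
    have hj0 : 0 ≤ j := by nlinarith
    lift j to ℕ using hj0
    rw [hj]
    clear hj hnr hn n
    induction j with
    | zero => simp
    | succ j ih =>
      rw [← ih]
      have h2 := ha (b + p * j) (by nlinarith [Int.natCast_nonneg j])
      rw [← h2]
      congr 1
      push_cast
      ring

theorem isEnd_bot : IsEnd atBot where
  add c := tendsto_atBot_add_const_right atBot c tendsto_id
  freq p _ r := by
    rw [frequently_atBot]
    intro a
    refine ⟨r.val - p * (|a| + p), ?_, ?_⟩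
    · have h1 : (1 : ℤ) ≤ p := by exact_mod_cast NeZero.one_le
      have h2 := abs_nonneg a
      have h3 := neg_abs_le a
      have h4 : (r.val : ℤ) < p := by exact_mod_cast ZMod.val_lt r
      nlinarith
    · push_cast
      rw [ZMod.natCast_self, zero_mul, sub_zero, ZMod.natCast_zmod_val]
  lim X p _ s h r := by
    obtain ⟨a, ha⟩ := eventually_atBot.1 h
    have h1 : ∃ b ≤ a, (b : ZMod p) = r := by
      refine ⟨r.val - p * (|a| + p), ?_, ?_⟩
      · have h1 : (1 : ℤ) ≤ p := by exact_mod_cast NeZero.one_le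
        have h2 := abs_nonneg a
        have h3 := neg_abs_le a
        have h4 : (r.val : ℤ) < p := by exact_mod_cast ZMod.val_lt r
        nlinarith
      · push_cast
        rw [ZMod.natCast_self, zero_mul, sub_zero, ZMod.natCast_zmod_val]
    obtain ⟨b, hb, hbr⟩ := h1
    refine ⟨s (b - p), eventually_atBot.2 ⟨b - p, fun n hn hnr => ?_⟩⟩
    have hbr' : ((b - p : ℤ) : ZMod p) = r := by
      push_cast
      rw [ZMod.natCast_self, sub_zero, hbr]
    obtain ⟨j, hj⟩ := zmod_dvd hnr hbr'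
    have h1 : (1 : ℤ) ≤ p := by exact_mod_cast NeZero.one_le
    have hj0 : 0 ≤ j := by nlinarith
    lift j to ℕ using hj0
    have h3 : ∀ i : ℕ, i ≤ j → s (n + p * i) = s n := by
      intro i
      induction i with
      | zero => intro _; simp
      | succ i ih =>
        intro hi
        rw [← ih (Nat.le_of_succ_le hi)]
        have h4 : (i : ℤ) ≤ j := by exact_mod_cast Nat.le_of_succ_le hi
        have h2 := ha (n + p * i) (by nlinarith [Int.natCast_nonneg j, Int.natCast_nonneg i])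
        rw [← h2]
        congr 1
        push_cast
        ring
    rw [hj, h3 j le_rfl]

open Classical in
/-- the limit along a residue class -/
noncomputable def limF {X : Type} [One X] (l : Filter ℤ) (p : ℕ) (s : ℤ → X) (r : ZMod p) : X :=
  if h : ∃ k, ∀ᶠ n : ℤ in l, (n : ZMod p) = r → s n = k then h.choose else 1

theorem limF_eq {X : Type} [One X] {l : Filter ℤ} (hl : IsEnd l) {p : ℕ} [NeZero p] {s : ℤ → X}
    {r : ZMod p} {k : X} (h : ∀ᶠ n : ℤ in l, (n : ZMod p) = r → s n = k) : limF l p s r = k := by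
  have h1 : ∃ k, ∀ᶠ n : ℤ in l, (n : ZMod p) = r → s n = k := ⟨k, h⟩
  unfold limF
  rw [dif_pos h1]
  obtain ⟨n, hn, h2, h3⟩ := ((hl.freq p r).and_eventually (h1.choose_spec.and h)).exists
  rw [← h2 hn, h3 hn]

theorem limF_spec {X : Type} [One X] {l : Filter ℤ} (hl : IsEnd l) {p : ℕ} [NeZero p] {s : ℤ → X}
    (hs : ∀ᶠ n in l, s (n + p) = s n) (r : ZMod p) :
    ∀ᶠ n : ℤ in l, (n : ZMod p) = r → s n = limF l p s r := by
  obtain ⟨k, hk⟩ := hl.lim X p s hs r
  rw [limF_eq hl hk]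
  exact hk

/-- the sequences which are eventually periodic -/
def Per (K : Type) [Group K] (p : ℕ) (l : Filter ℤ) : Subgroup (ℤ → K) where
  carrier := {s | ∀ᶠ n in l, s (n + p) = s n}
  one_mem' := Eventually.of_forall fun _ => rfl
  mul_mem' := by
    intro a b ha hb
    filter_upwards [ha, hb] with n h1 h2
    rw [Pi.mul_apply, Pi.mul_apply, h1, h2]
  inv_mem' := by
    intro a ha
    filter_upwards [ha] with n h1
    rw [Pi.inv_apply, Pi.inv_apply, h1]

/-- periodic near both ends -/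
noncomputable def NB (K : Type) [Group K] (p : ℕ) : Subgroup (ℤ → K) := Per K p atTop ⊓ Per K p atBot

/-- the twisted shift -/
def TS {K : Type} [Group K] (γ : ℤ → MulAut K) : MulAut (ℤ → K) := tw (Equiv.addRight 1) γ

theorem TS_apply {K : Type} [Group K] (γ : ℤ → MulAut K) (s : ℤ → K) (n : ℤ) :
    TS γ s n = γ (n - 1) (s (n - 1)) := rfl

theorem TS_inv_apply {K : Type} [Group K] (γ : ℤ → MulAut K) (s : ℤ → K) (n : ℤ) :
    (TS γ)⁻¹ s n = (γ n)⁻¹ (s (n + 1)) := rfl

theorem TS_mem {K : Type} [Group K] {p : ℕ} {l : Filter ℤ} (hl : IsEnd l) {γ : ℤ → MulAut K}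
    (hγ : ∀ᶠ n in l, γ (n + p) = γ n) {s : ℤ → K} (hs : s ∈ Per K p l) : TS γ s ∈ Per K p l := by
  have h1 := (hl.add (-1)).eventually (hγ.and hs)
  filter_upwards [h1] with n h2
  rw [TS_apply, TS_apply]
  have e1 : n + (p : ℤ) - 1 = n + -1 + p := by ring
  rw [e1, h2.1, h2.2]
  rfl

theorem TS_inv_mem {K : Type} [Group K] {p : ℕ} {l : Filter ℤ} (hl : IsEnd l) {γ : ℤ → MulAut K}
    (hγ : ∀ᶠ n in l, γ (n + p) = γ n) {s : ℤ → K} (hs : s ∈ Per K p l) :
    (TS γ)⁻¹ s ∈ Per K p l := by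
  have h1 := (hl.add 1).eventually hs
  filter_upwards [h1, hγ] with n h2 h3
  rw [TS_inv_apply, TS_inv_apply]
  have e1 : n + (p : ℤ) + 1 = n + 1 + p := by ring
  rw [e1, h3, h2]

/-- the restriction of an automorphism -/
def resAut {G : Type} [Group G] (α : MulAut G) (H : Subgroup G) (h1 : ∀ x ∈ H, α x ∈ H)
    (h2 : ∀ x ∈ H, α⁻¹ x ∈ H) : MulAut H where
  toFun x := ⟨α x, h1 _ x.2⟩
  invFun x := ⟨α⁻¹ x, h2 _ x.2⟩
  left_inv x := Subtype.ext (MulAut.inv_apply_self _ α x.1)
  right_inv x := Subtype.ext (MulAut.apply_inv_self _ α x.1)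
  map_mul' x y := Subtype.ext (map_mul α _ _)

/-- a twist which is periodic near both ends -/
structure Tws {K : Type} [Group K] (A : Subgroup (MulAut K)) (p : ℕ) (γ : ℤ → MulAut K) : Prop where
  mem : ∀ n, γ n ∈ A
  top : ∀ᶠ n in atTop, γ (n + p) = γ n
  bot : ∀ᶠ n in atBot, γ (n + p) = γ n

section main

variable {K : Type} [Group K] {A : Subgroup (MulAut K)} {p : ℕ} {γ : ℤ → MulAut K}

/-- the twisted shift of the sequences that are periodic near both ends -/
noncomputable def TB (h : Tws A p γ) : MulAut (NB K p) :=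
  resAut (TS γ) (NB K p)
    (fun _ hx => ⟨TS_mem isEnd_top h.top hx.1, TS_mem isEnd_bot h.bot hx.2⟩)
    (fun _ hx => ⟨TS_inv_mem isEnd_top h.top hx.1, TS_inv_mem isEnd_bot h.bot hx.2⟩)

theorem TB_val (h : Tws A p γ) (x : NB K p) : ((TB h x : NB K p) : ℤ → K) = TS γ x := rfl

theorem TB_zpow (h : Tws A p γ) (k : ℤ) (x : NB K p) :
    (((TB h ^ k) x : NB K p) : ℤ → K) = (TS γ ^ k) x :=
  inter (Subgroup.subtype (NB K p)) (TB h) (TS γ) (fun x => TB_val h x) k x

variable [NeZero p]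

/-- the limits of a sequence -/
noncomputable def limH (l : Filter ℤ) (hl : IsEnd l) (hle : NB K p ≤ Per K p l) :
    NB K p →* (ZMod p → K) where
  toFun x := limF l p x.1
  map_one' := by
    funext r
    exact limF_eq hl (Eventually.of_forall fun _ _ => rfl)
  map_mul' x y := by
    funext r
    refine limF_eq hl ?_
    filter_upwards [limF_spec hl (hle x.2) r, limF_spec hl (hle y.2) r] with n h1 h2 h3
    change x.1 n * y.1 n = _
    rw [h1 h3, h2 h3]
    rfl

theorem limH_TB (h : Tws A p γ) (l : Filter ℤ) (hl : IsEnd l) (hle : NB K p ≤ Per K p l)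
    (hγ : ∀ᶠ n in l, γ (n + p) = γ n) (x : NB K p) :
    limH l hl hle (TB h x) = tw (Equiv.addRight 1) (limF l p γ) (limH l hl hle x) := by
  funext r
  refine limF_eq hl ?_
  have h1 := limF_spec hl hγ (r - 1)
  have h2 := limF_spec hl (hle x.2) (r - 1)
  filter_upwards [(hl.add (-1)).eventually (h1.and h2)] with n h3 h4
  have h5 : ((n + -1 : ℤ) : ZMod p) = r - 1 := by
    push_cast
    rw [h4]
    ring
  change γ (n - 1) (x.1 (n - 1)) = _
  have h6 := h3.1 h5
  have h7 := h3.2 h5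
  have h8 : (Equiv.addRight (1 : ZMod p)).symm r = r - 1 := by
    rw [Equiv.symm_apply_eq]
    simp
  rw [show n - 1 = n + -1 from rfl, h6, h7, tw_apply, h8]
  rfl

theorem limF_mem {l : Filter ℤ} (hl : IsEnd l) (hγ : ∀ᶠ n in l, γ (n + p) = γ n)
    (hA : ∀ n, γ n ∈ A) (r : ZMod p) : limF l p γ r ∈ A := by
  obtain ⟨n, h1, h2⟩ := ((hl.freq p r).and_eventually (limF_spec hl hγ r)).exists
  rw [← h2 h1]
  exact hA n

/-- the map to the mapping torus of the periodic sequences at one end -/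
noncomputable def Phi (h : Tws A p γ) (l : Filter ℤ) (hl : IsEnd l) (hle : NB K p ≤ Per K p l)
    (hγ : ∀ᶠ n in l, γ (n + p) = γ n) :
    MT (TB h) →* MT (tw (Equiv.addRight (1 : ZMod p)) (limF l p γ)) :=
  mtMap (limH l hl hle) (TB h) _ (limH_TB h l hl hle hγ)

theorem ker_ev (l : Filter ℤ) (hl : IsEnd l) (hle : NB K p ≤ Per K p l)
    (x : NB K p) (hx : limH l hl hle x = 1) : ∀ᶠ n in l, x.1 n = 1 := by
  have h1 : ∀ r : ZMod p, ∀ᶠ n : ℤ in l, (n : ZMod p) = r → x.1 n = 1 := by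
    intro r
    have h2 := limF_spec hl (hle x.2) r
    have h3 : limF l p x.1 r = 1 := congrFun hx r
    rw [h3] at h2
    exact h2
  filter_upwards [eventually_all.2 h1] with n hn
  exact hn _ rfl

end main

end Pool.Agent.K3h28.FR
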