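import Pool.Agent.K3h28.FR.Seq

/-!
# The mapping torus of the sequences which are periodic near both ends is in the class

Helper28, for MP_e40716_gt (FiniteRangeFunctions).
-/

set_option autoImplicit false

namespace Pool.Agent.K3h28.FR

open Pool.Agent.Y110.FJ
open Pool.Agent.Y462.SS (Closed)
open Filter

section main

variable {K : Type} [Group K] {A : Subgroup (MulAut K)} {p : ℕ} {γ : ℤ → MulAut K}

/-- the elements of the mapping torus given by sequences supported in `[-B, B]` -/
def SB (h : Tws A p γ) (B : ℤ) : Subgroup (MT (TB h)) where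
  carrier := {x | x.right = 1 ∧ ∀ n, B < |n| → x.left.1 n = 1}
  one_mem' := ⟨rfl, fun _ _ => rfl⟩
  mul_mem' := by
    intro a b ha hb
    refine ⟨?_, fun n hn => ?_⟩
    · rw [SemidirectProduct.mul_right, ha.1, hb.1, mul_one]
    · rw [SemidirectProduct.mul_left, ha.1, map_one, MulAut.one_apply]
      change a.left.1 n * b.left.1 n = 1
      rw [ha.2 n hn, hb.2 n hn, mul_one]
  inv_mem' := by
    intro a ha
    have h1 : a⁻¹.right = 1 := by rw [SemidirectProduct.inv_right, ha.1, inv_one]
    refine ⟨h1, fun n hn => ?_⟩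
    rw [SemidirectProduct.inv_left, ha.1, inv_one, map_one, MulAut.one_apply]
    change (a.left.1 n)⁻¹ = 1
    rw [ha.2 n hn, inv_one]

/-- evaluation -/
def evB (h : Tws A p γ) (n : ℤ) :
    (SemidirectProduct.rightHom : MT (TB h) →* Multiplicative ℤ).ker →* K where
  toFun x := x.1.left.1 n
  map_one' := rfl
  map_mul' x y := by
    have h1 : x.1.right = 1 := x.2
    change (x.1 * y.1).left.1 n = x.1.left.1 n * y.1.left.1 n
    rw [SemidirectProduct.mul_left, h1, map_one, MulAut.one_apply]
    rfl

theorem C_seq {C : ∀ (G : Type) [Group G], Prop} (hC : ClosedE C)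
    (hA : ∀ α ∈ A, C (MT α)) (hInn : ∀ k : K, MulAut.conj k ∈ A) [NeZero p] (h : Tws A p γ) :
    C (MT (TB h)) := by
  obtain ⟨P1, hP1⟩ : ∃ P1, P1 = Phi h atTop isEnd_top inf_le_left h.top := ⟨_, rfl⟩
  obtain ⟨P2, hP2⟩ : ∃ P2, P2 = Phi h atBot isEnd_bot inf_le_right h.bot := ⟨_, rfl⟩
  refine Pool.Agent.R779.FJ.t_crit Pool.Agent.Y529.FJ.t_ext
    (Pool.Agent.Y961.FJ.t_perm Pool.Agent.Y529.FJ.t_ext) C hC (MT (TB h)) (P1.prod P2).ker ?_ ?_
  · refine hC.base.of_injective _ _ (QuotientGroup.kerLift (P1.prod P2))
      (QuotientGroup.kerLift_injective _) (hC.base.prod _ _ ?_ ?_)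
    · exact C_tw hC.base A hA _ _ (limF_mem isEnd_top h.top h.mem)
    · exact C_tw hC.base A hA _ _ (limF_mem isEnd_bot h.bot h.mem)
  · intro g E hE hEN
    obtain ⟨E', hE'⟩ : ∃ E' : Set (MT (TB h)), E' = E ∪ (fun x => g * x * g⁻¹) '' E := ⟨_, rfl⟩
    have hE'f : E'.Finite := by rw [hE']; exact hE.union (hE.image _)
    have hE'N : E' ⊆ (P1.prod P2).ker := by
      rw [hE']
      refine Set.union_subset hEN ?_
      rintro _ ⟨x, hx, rfl⟩
      exact Subgroup.Normal.conj_mem inferInstance x (hEN hx) g
    -- the supports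
    have h1 : ∀ x ∈ (P1.prod P2).ker, x.right = 1 ∧ ∃ B : ℤ, ∀ n, B < |n| → x.left.1 n = 1 := by
      intro x hx
      have h2 : P1 x = 1 := congrArg Prod.fst hx
      have h3 : P2 x = 1 := congrArg Prod.snd hx
      rw [hP1] at h2
      rw [hP2] at h3
      refine ⟨congrArg SemidirectProduct.right h2, ?_⟩
      have h4 := ker_ev atTop isEnd_top inf_le_left x.left (congrArg SemidirectProduct.left h2)
      have h5 := ker_ev atBot isEnd_bot inf_le_right x.left (congrArg SemidirectProduct.left h3)
      obtain ⟨a, ha⟩ := eventually_atTop.1 h4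
      obtain ⟨b, hb⟩ := eventually_atBot.1 h5
      refine ⟨|a| + |b|, fun n hn => ?_⟩
      have h6 := le_abs_self a
      have h7 := neg_abs_le b
      have h8 := abs_nonneg a
      have h9 := abs_nonneg b
      rcases le_or_gt 0 n with h0 | h0
      · rw [abs_of_nonneg h0] at hn
        exact ha n (by linarith)
      · rw [abs_of_neg h0] at hn
        exact hb n (by linarith)
    have h2 : ∃ B : ℤ, 0 ≤ B ∧ ∀ x ∈ E', ∀ n, B < |n| → x.left.1 n = 1 := by
      choose! b hb using fun x hx => (h1 x hx).2
      obtain ⟨B, hB⟩ := (hE'f.image b).bddAbove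
      refine ⟨max B 0, le_max_right _ _, fun x hx n hn => hb x (hE'N hx) n ?_⟩
      exact lt_of_le_of_lt ((hB (Set.mem_image_of_mem b hx)).trans (le_max_left _ _)) hn
    obtain ⟨B, hB0, hB⟩ := h2
    have hcl : Subgroup.closure E' ≤ SB h B := by
      rw [Subgroup.closure_le]
      exact fun x hx => ⟨(h1 x (hE'N hx)).1, hB x hx⟩
    have hcl2 : SB h B ≤ (SemidirectProduct.rightHom : MT (TB h) →* Multiplicative ℤ).ker :=
      fun x hx => hx.1
    obtain ⟨k, hk⟩ : ∃ k : ℤ, k = Multiplicative.toAdd g.right := ⟨_, rfl⟩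
    -- the modulus
    obtain ⟨m, hm⟩ : ∃ m : ℕ, m = (2 * (B + |k|) + 1).toNat := ⟨_, rfl⟩
    have hmz : (m : ℤ) = 2 * (B + |k|) + 1 := by
      rw [hm, Int.toNat_of_nonneg]
      have := abs_nonneg k
      linarith
    have hm0 : NeZero m := ⟨fun h0 => by
      rw [h0] at hmz
      have := abs_nonneg k
      push_cast at hmz
      linarith⟩
    have hval : ∀ r : ZMod m, 2 * |r.valMinAbs| ≤ m := by
      intro r
      have h3 := ZMod.natAbs_valMinAbs_le r
      have h4 : |r.valMinAbs| = (r.valMinAbs.natAbs : ℤ) := (Int.natCast_natAbs _).symm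
      rw [h4]
      have h5 : 2 * r.valMinAbs.natAbs ≤ m := by omega
      exact_mod_cast h5
    unfold Realized
    rw [← hE']
    obtain ⟨ev, hev⟩ : ∃ ev : ℤ → (Subgroup.closure E' →* K),
        ev = fun n => (evB h n).comp (Subgroup.inclusion (hcl.trans hcl2)) := ⟨_, rfl⟩
    have hev' : ∀ n w, ev n w = w.1.left.1 n := by
      intro n w
      rw [hev]
      rfl
    have key := RR_tw hC.base A hA
      (M := Subgroup.closure E') (fun x y => (x : MT (TB h)) ∈ E ∧ (y : MT (TB h)) = g * x * g⁻¹)
      (Equiv.addRight (k : ZMod m)) (fun r => ev r.valMinAbs) ?_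
    · obtain ⟨P, _, f, q, hCP, hrel, hinj⟩ := key
      refine ⟨P, _, f, q, hCP, (injective_iff_map_eq_one f).2 fun w hw => ?_, fun x y hx hy =>
        hrel x y ⟨hx, hy⟩⟩
      have h3 := hinj w hw
      have h4 := hcl w.2
      refine Subtype.ext (SemidirectProduct.ext (Subtype.ext (funext fun n => ?_)) h4.1)
      by_cases hn : B < |n|
      · exact h4.2 n hn
      · have h5 : ((n : ZMod m)).valMinAbs = n := by
          rw [ZMod.valMinAbs_spec]
          refine ⟨rfl, ?_⟩
          have h6 := abs_nonneg k
          have h7 := le_abs_self n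
          have h8 := neg_abs_le n
          rw [Set.mem_Ioc, hmz]
          constructor <;> linarith
        have h9 := h3 (n : ZMod m)
        rw [h5, hev'] at h9
        exact h9
    · intro r
      obtain ⟨u, hu⟩ : ∃ u : ℤ, u = r.valMinAbs := ⟨_, rfl⟩
      obtain ⟨v, hv⟩ : ∃ v : ℤ, v = (r + (k : ZMod m)).valMinAbs := ⟨_, rfl⟩
      have hu2 := hval r
      have hv2 := hval (r + (k : ZMod m))
      rw [← hu] at hu2
      rw [← hv] at hv2
      have hdvd : ∃ j : ℤ, v = u + k + m * j := by
        refine zmod_dvd (p := m) (r := r + (k : ZMod m)) ?_ ?_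
        · push_cast
          rw [hu, ZMod.coe_valMinAbs]
        · rw [hv, ZMod.coe_valMinAbs]
      obtain ⟨j, hj⟩ := hdvd
      have e1 : (Equiv.addRight (k : ZMod m)) r = r + (k : ZMod m) := rfl
      simp only [e1]
      rw [← hu, ← hv]
      by_cases hj0 : j = 0
      · -- inside the window
        rw [hj0, mul_zero, add_zero] at hj
        obtain ⟨α, hα, hα2⟩ := tw_zpow A (Equiv.addRight (1 : ℤ)) γ h.mem k u
        have hgk : ((Equiv.addRight (1 : ℤ)) ^ k) u = u + k := by
          clear hα2
          have h3 : ∀ (k : ℤ) (u : ℤ), ((Equiv.addRight (1 : ℤ)) ^ k) u = u + k := by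
            intro k
            induction k with
            | zero => intro u; simp
            | succ n ih =>
              intro u
              rw [zpow_add_one, Equiv.Perm.mul_apply, ih]
              change u + 1 + _ = _
              ring
            | pred n ih =>
              intro u
              rw [zpow_sub_one, Equiv.Perm.mul_apply, ih]
              change u + -1 + _ = _
              ring
          exact h3 k u
        refine ⟨MulAut.conj (g.left.1 v) * α, mul_mem (hInn _) hα, fun x y hxy => ?_⟩
        rw [hev', hev', MulAut.mul_apply, MulAut.conj_apply, hj, ← hα2, hgk]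
        have h3 : x.1.right = 1 := (hcl x.2).1
        have h4 : y.1.right = 1 := (hcl y.2).1
        have h5 : y.1 * g = g * x.1 := by
          rw [hxy.2, inv_mul_cancel_right]
        have h6 := congrArg SemidirectProduct.left h5
        rw [SemidirectProduct.mul_left, SemidirectProduct.mul_left, h4, map_one, MulAut.one_apply]
          at h6
        have h7 := congrFun (congrArg Subtype.val h6) (u + k)
        have h8 : y.1.left.1 (u + k) * g.left.1 (u + k) =
            g.left.1 (u + k) * ((TS γ ^ k) x.1.left.1) (u + k) := by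
          have h9 : (TB h ^ k) x.1.left =
              (zpowersHom (MulAut (NB K p)) (TB h)) g.right x.1.left := by
            rw [hk]
            rfl
          rw [← TB_zpow h k x.1.left, h9]
          exact h7
        rw [eq_mul_inv_iff_mul_eq]
        exact h8
      · -- outside the supports
        have hmj : (m : ℤ) ≤ |v - (u + k)| := by
          have h3 : v - (u + k) = m * j := by linarith
          rw [h3, abs_mul, Nat.abs_cast]
          have h4 : 1 ≤ |j| := Int.one_le_abs hj0
          have h5 : (0 : ℤ) ≤ m := Int.natCast_nonneg m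
          nlinarith
        have h3 : |v - (u + k)| ≤ |v| + |u| + |k| := by
          have h6 := abs_sub v (u + k)
          have h7 := abs_add_le u k
          linarith
        have hBu : B < |u| := by linarith
        have hBv : B < |v| := by linarith
        refine ⟨1, one_mem _, fun x y _ => ?_⟩
        rw [hev', hev', (hcl x.2).2 u hBu, (hcl y.2).2 v hBv, map_one]

end main

end Pool.Agent.K3h28.FR
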