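import Pool.Agent.K3h28.FR.Seqc

/-!
# Walks in finite graphs of homomorphisms

Helper28, for MP_e40716_gt (FiniteRangeFunctions).
-/

set_option autoImplicit false

namespace Pool.Agent.K3h28.FR

open Pool.Agent.Y110.FJ
open Pool.Agent.Y462.SS (Closed)
open Filter

theorem iter_per {V : Type} [Finite V] (f : V → V) :
    ∃ a d : ℕ, 0 < d ∧ ∀ n, a ≤ n → ∀ x, f^[n + d] x = f^[n] x := by
  obtain ⟨i, j, hij, h⟩ := Finite.exists_ne_map_eq_of_infinite (fun n : ℕ => f^[n])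
  have key : ∀ i j : ℕ, i < j → f^[i] = f^[j] →
      ∃ a d : ℕ, 0 < d ∧ ∀ n, a ≤ n → ∀ x, f^[n + d] x = f^[n] x := by
    intro i j hlt he
    refine ⟨i, j - i, Nat.sub_pos_of_lt hlt, fun n hn x => ?_⟩
    have e1 : n + (j - i) = (n - i) + j := by omega
    have e2 : n = (n - i) + i := by omega
    rw [e1, Function.iterate_add_apply, ← he, ← Function.iterate_add_apply, ← e2]
  rcases lt_or_gt_of_ne hij with hlt | hlt
  · exact key i j hlt h
  · exact key j i hlt h.symm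

theorem iter_per' {V : Type} {f : V → V} {a d : ℕ}
    (h : ∀ n, a ≤ n → ∀ x, f^[n + d] x = f^[n] x) (c : ℕ) :
    ∀ n, a ≤ n → ∀ x, f^[n + d * c] x = f^[n] x := by
  induction c with
  | zero => intro n _ x; rfl
  | succ c ih =>
    intro n hn x
    have e1 : n + d * (c + 1) = (n + d * c) + d := by ring
    rw [e1, h _ (hn.trans (Nat.le_add_right _ _)), ih n hn]

/-- the walk through `u`: forwards by `nx` and backwards by `pv` -/
def wk {V : Type} (nx pv : V → V) (u : V) : ℤ → V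
  | Int.ofNat k => nx^[k] u
  | Int.negSucc k => pv^[k + 1] u

theorem wk_edge {V : Type} (nx pv : V → V) (u : V) (Ed : V → V → Prop) (h1 : ∀ v, Ed v (nx v))
    (h2 : ∀ v, Ed (pv v) v) (n : ℤ) : Ed (wk nx pv u n) (wk nx pv u (n + 1)) := by
  match n with
  | Int.ofNat k =>
    change Ed (nx^[k] u) (nx^[k + 1] u)
    rw [Function.iterate_succ_apply']
    exact h1 _
  | Int.negSucc 0 => exact h2 u
  | Int.negSucc (k + 1) =>
    change Ed (pv^[k + 1 + 1] u) (pv^[k + 1] u)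
    rw [Function.iterate_succ_apply' pv (k + 1)]
    exact h2 _

theorem wk_top {V : Type} (nx pv : V → V) (u : V) {a p : ℕ}
    (h : ∀ n, a ≤ n → ∀ x, nx^[n + p] x = nx^[n] x) :
    ∀ᶠ n in atTop, wk nx pv u (n + p) = wk nx pv u n := by
  refine eventually_atTop.2 ⟨a, fun n hn => ?_⟩
  obtain ⟨k, rfl⟩ : ∃ k : ℕ, n = k := ⟨n.toNat, by omega⟩
  exact h k (by exact_mod_cast hn) u

theorem wk_bot {V : Type} (nx pv : V → V) (u : V) {a p : ℕ}
    (h : ∀ n, a ≤ n → ∀ x, pv^[n + p] x = pv^[n] x) :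
    ∀ᶠ n in atBot, wk nx pv u (n + p) = wk nx pv u n := by
  refine eventually_atBot.2 ⟨-(a + p + 1), fun n hn => ?_⟩
  obtain ⟨t, ht⟩ : ∃ t : ℕ, (t : ℤ) = -n - 1 - p := ⟨(-n - 1 - p).toNat, by omega⟩
  have e1 : n = Int.negSucc (t + p) := by omega
  have e2 : n + p = Int.negSucc t := by omega
  rw [e2, e1]
  change pv^[t + 1] u = pv^[t + p + 1] u
  have e3 : t + p + 1 = t + 1 + p := by ring
  rw [e3, h (t + 1) (by omega)]

/-- realization along the walks in a finite graph -/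
theorem RR_graph {C : ∀ (G : Type) [Group G], Prop} (hC : ClosedE C) {K : Type} [Group K]
    (A : Subgroup (MulAut K)) (hA : ∀ α ∈ A, C (MT α)) (hInn : ∀ k : K, MulAut.conj k ∈ A)
    {M : Type} [Group M] (Rel : M → M → Prop) {V : Type} [Finite V] (Ψ : V → M →* K)
    (h1 : ∀ u, ∃ u', ∃ α ∈ A, ∀ x y, Rel x y → Ψ u' y = α (Ψ u x))
    (h2 : ∀ u, ∃ u', ∃ α ∈ A, ∀ x y, Rel x y → Ψ u y = α (Ψ u' x)) :
    RR C Rel (fun w => ∀ u, Ψ u w = 1) := by
  classical
  refine RR.all hC.base _ fun u₀ => ?_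
  choose nx hnx using h1
  choose pv hpv using h2
  obtain ⟨a1, d1, hd1, hp1⟩ := iter_per nx
  obtain ⟨a2, d2, hd2, hp2⟩ := iter_per pv
  obtain ⟨p, hp⟩ : ∃ p : ℕ, p = d1 * d2 := ⟨_, rfl⟩
  have hp0 : NeZero p := ⟨by rw [hp]; exact (Nat.mul_pos hd1 hd2).ne'⟩
  have hq1 : ∀ n, a1 ≤ n → ∀ x, nx^[n + p] x = nx^[n] x := by
    rw [hp]
    exact iter_per' hp1 d2
  have hq2 : ∀ n, a2 ≤ n → ∀ x, pv^[n + p] x = pv^[n] x := by
    rw [hp, mul_comm]
    exact iter_per' hp2 d1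
  obtain ⟨W, hW⟩ : ∃ W : ℤ → V, W = wk nx pv u₀ := ⟨_, rfl⟩
  have hW0 : W 0 = u₀ := by rw [hW]; rfl
  have hWt : ∀ᶠ n in atTop, W (n + p) = W n := by rw [hW]; exact wk_top nx pv u₀ hq1
  have hWb : ∀ᶠ n in atBot, W (n + p) = W n := by rw [hW]; exact wk_bot nx pv u₀ hq2
  -- the edges
  obtain ⟨Ed, hEd⟩ : ∃ Ed : V → V → Prop,
      Ed = fun u u' => ∃ α ∈ A, ∀ x y, Rel x y → Ψ u' y = α (Ψ u x) := ⟨_, rfl⟩
  have hWe : ∀ n, Ed (W n) (W (n + 1)) := by
    rw [hW]
    refine wk_edge nx pv u₀ Ed (fun v => ?_) (fun v => ?_)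
    · rw [hEd]; exact hnx v
    · rw [hEd]; exact hpv v
  have hc : ∃ c : V → V → MulAut K, (∀ u u', c u u' ∈ A) ∧
      ∀ u u', Ed u u' → ∀ x y, Rel x y → Ψ u' y = c u u' (Ψ u x) := by
    have h3 : ∀ u u', ∃ α ∈ A, Ed u u' → ∀ x y, Rel x y → Ψ u' y = α (Ψ u x) := by
      intro u u'
      by_cases h : Ed u u'
      · have h4 := h
        rw [hEd] at h4
        obtain ⟨α, hα, h5⟩ := h4
        exact ⟨α, hα, fun _ => h5⟩
      · exact ⟨1, one_mem _, fun h' => absurd h' h⟩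
    choose c hc1 hc2 using h3
    exact ⟨c, hc1, hc2⟩
  obtain ⟨c, hcA, hc⟩ := hc
  have hT : Tws A p (fun n => c (W n) (W (n + 1))) := by
    refine ⟨fun n => hcA _ _, ?_, ?_⟩
    · filter_upwards [hWt, (isEnd_top.add 1).eventually hWt] with n h3 h4
      have e1 : n + (p : ℤ) + 1 = n + 1 + p := by ring
      rw [h3, e1, h4]
    · filter_upwards [hWb, (isEnd_bot.add 1).eventually hWb] with n h3 h4
      have e1 : n + (p : ℤ) + 1 = n + 1 + p := by ring
      rw [h3, e1, h4]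
  let F : M →* NB K p :=
    { toFun := fun w => ⟨fun n => Ψ (W n) w, by
        constructor
        · filter_upwards [hWt] with n h3
          rw [h3]
        · filter_upwards [hWb] with n h3
          rw [h3]⟩
      map_one' := Subtype.ext (funext fun n => map_one _)
      map_mul' := fun x y => Subtype.ext (funext fun n => map_mul _ _ _) }
  refine ⟨MT (TB hT), inferInstance, SemidirectProduct.inl.comp F, gen (TB hT),
    C_seq hC hA hInn hT, fun x y hxy => ?_, fun w hw => ?_⟩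
  · change SemidirectProduct.inl _ = gen (TB hT) * SemidirectProduct.inl _ * (gen (TB hT))⁻¹
    rw [gen_conj]
    congr 1
    refine Subtype.ext (funext fun n => ?_)
    rw [TB_val, TS_apply]
    change Ψ (W n) y = c (W (n - 1)) (W (n - 1 + 1)) (Ψ (W (n - 1)) x)
    have h3 := hc _ _ (hWe (n - 1)) x y hxy
    rw [← h3, sub_add_cancel]
  · have h3 : (SemidirectProduct.inl (F w) : MT (TB hT)) = 1 := hw
    have h4 : F w = 1 := congrArg SemidirectProduct.left h3
    have h5 := congrFun (congrArg Subtype.val h4) 0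
    have h6 : Ψ (W 0) w = 1 := h5
    rwa [hW0] at h6

end Pool.Agent.K3h28.FR
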